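import Pool.Agent.Helper19_Sob.B5a

/-!
# B5: the extension of the height function, as a series
-/

set_option autoImplicit false

open Set Filter Topology Metric MeasureTheory
open scoped ENNReal NNReal

namespace Pool.Agent.Helper19Sob

open Pool.Agent.Helper27Sob

lemma LL.continuous_of {f : Z → ℝ} (h : ∀ z, LL f z) : Continuous f :=
  continuous_iff_continuousAt.2 fun z => (h z).continuousAt

/-- the basic comparison: locally Lipschitz and bounded gives a global one-sided bound -/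
lemma cmp {f : Z → ℝ} {T : Set Z} {B r K : ℝ} {z₀ : Z} (hr : 0 < r) (hK : 0 ≤ K) (hB : 0 ≤ B)
    (hb : ∀ w ∈ T, |f w| ≤ B)
    (hf : ∀ x ∈ T ∩ ball z₀ r, ∀ y ∈ T ∩ ball z₀ r, |f x - f y| ≤ K * ‖x - y‖)
    {z w : Z} (hz : z ∈ T) (hzb : z ∈ ball z₀ (r / 2)) (hw : w ∈ T) :
    f z - f w ≤ (K + 4 * B / r) * ‖z - w‖ := by
  by_cases h : w ∈ ball z₀ r
  · have h1 := (abs_le.1 (hf z ⟨hz, ball_subset_ball (by linarith) hzb⟩ w ⟨hw, h⟩)).2
    have h2 : 0 ≤ 4 * B / r * ‖z - w‖ := by positivity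
    linarith
  · have h1 := (abs_le.1 (hb z hz)).2
    have h2 := (abs_le.1 (hb w hw)).1
    rw [mem_ball, dist_eq_norm] at h hzb
    push Not at h
    have h3 : r / 2 ≤ ‖z - w‖ := by
      have : w - z₀ = (z - z₀) - (z - w) := by abel
      have h4 := norm_sub_le (z - z₀) (z - w)
      rw [← this] at h4
      linarith
    have h4 : 2 * B ≤ 4 * B / r * ‖z - w‖ := by
      calc 2 * B = 4 * B / r * (r / 2) := by field_simp; ring
        _ ≤ _ := mul_le_mul_of_nonneg_left h3 (by positivity)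
    have h5 : 0 ≤ K * ‖z - w‖ := by positivity
    linarith

/-- Approximation by Lipschitz functions, exact away from `P`. -/
lemma approx (P : Set Z) (h : Z → ℝ) (B R : ℝ) (hB : 0 ≤ B) (hR : 0 ≤ R) (hP : IsCompact P)
    (hPn : P.Nonempty) (hb : ∀ z, |h z| ≤ B) (hc : Continuous h) (hl : ∀ z ∉ P, LL h z)
    (hR0 : ∀ z, R ≤ ‖z‖ → h z = 0) {η τ : ℝ} (hη : 0 < η) (hτ : 0 < τ) :
    ∃ f : Z → ℝ, (∃ L : ℝ≥0, LipschitzWith L f) ∧ (∀ z, |f z - h z| ≤ τ) ∧
      (∀ z, η ≤ infDist z P → f z = h z) ∧ (∀ z, R + 1 ≤ ‖z‖ → f z = 0) := by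
  -- the first slope bound
  obtain ⟨m, hm1, hm2, hm3⟩ := exists_min P (fun z a => ∀ w, h z ≤ h w + ‖z - w‖ / a)
    (fun z a a' h1 h2 h3 w => (h3 w).trans (by
      have := div_le_div_of_nonneg_left (norm_nonneg (z - w)) h1 h2
      linarith))
    (fun z₀ hz₀ => by
      obtain ⟨r, hr, K, hK, h1⟩ := hl z₀ hz₀
      refine ⟨r / 2, by positivity, 1 / (1 + K + 4 * B / r), by positivity, fun z hz _ w => ?_⟩
      have h2 := cmp (T := univ) hr hK hB (fun w _ => hb w)
        (fun x hx y hy => h1 x hx.2 y hy.2) (mem_univ z) hz (mem_univ w)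
      rw [div_div_eq_mul_div, div_one]
      have h3 : ‖z - w‖ * (1 + K + 4 * B / r) = ‖z - w‖ + (K + 4 * B / r) * ‖z - w‖ := by ring
      rw [h3]
      have := norm_nonneg (z - w)
      linarith)
  have hN1 : ∃ N1 > 0, ∀ z, η ≤ infDist z P → ‖z‖ ≤ R + 1 → ∀ w, h z ≤ h w + N1 * ‖z - w‖ := by
    set Kη : Set Z := {z | η ≤ infDist z P} ∩ closedBall 0 (R + 1) with hKη
    have hKc : IsCompact Kη := by
      refine (isCompact_closedBall 0 (R + 1)).inter_left ?_
      exact isClosed_le continuous_const (continuous_infDist_pt P)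
    have hmc : Continuous m := by
      refine LL.continuous_of fun z => LL.of_lip zero_le_one (fun x y => ?_) z
      rw [one_mul]
      exact hm1 x y
    have hKP : ∀ z ∈ Kη, z ∉ P := by
      rintro z ⟨h1, _⟩ h2
      rw [mem_ofPred_eq, infDist_zero_of_mem h2] at h1
      linarith
    by_cases hne : Kη.Nonempty
    · obtain ⟨z₁, hz₁, hmin⟩ := hKc.exists_isMinOn hne hmc.continuousOn
      refine ⟨1 / m z₁, by have := (hm3 z₁ (hKP z₁ hz₁)).1; positivity, fun z hz hzR w => ?_⟩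
      have hz' : z ∈ Kη := ⟨hz, by rwa [mem_closedBall, dist_zero_right]⟩
      have h1 := (hm3 z (hKP z hz')).2 w
      have h2 : m z₁ ≤ m z := hmin hz'
      have h3 := div_le_div_of_nonneg_left (norm_nonneg (z - w)) (hm3 z₁ (hKP z₁ hz₁)).1 h2
      have h4 : 1 / m z₁ * ‖z - w‖ = ‖z - w‖ / m z₁ := by ring
      rw [h4]
      linarith
    · refine ⟨1, one_pos, fun z hz hzR w => ?_⟩
      exact absurd ⟨z, hz, by rwa [mem_closedBall, dist_zero_right]⟩ hne
  obtain ⟨N1, hN1p, hN1⟩ := hN1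
  -- uniform continuity
  have huc : ∃ ρ > 0, ∀ z w, ‖z - w‖ < ρ → |h z - h w| ≤ τ := by
    have h1 := (isCompact_closedBall (0 : Z) (R + 1)).uniformContinuousOn_of_continuous
      hc.continuousOn
    rw [Metric.uniformContinuousOn_iff] at h1
    obtain ⟨ρ, hρ, h2⟩ := h1 τ hτ
    refine ⟨min ρ 1, lt_min hρ one_pos, fun z w hzw => ?_⟩
    have h3 : ‖z - w‖ < ρ := lt_of_lt_of_le hzw (min_le_left _ _)
    have h4 : ‖z - w‖ < 1 := lt_of_lt_of_le hzw (min_le_right _ _)
    by_cases hz : ‖z‖ ≤ R + 1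
    · by_cases hw : ‖w‖ ≤ R + 1
      · have := h2 z (by rwa [mem_closedBall, dist_zero_right]) w
          (by rwa [mem_closedBall, dist_zero_right]) (by rwa [dist_eq_norm])
        rw [Real.dist_eq] at this
        exact this.le
      · push Not at hw
        have h5 : ‖w‖ - ‖z‖ ≤ ‖z - w‖ := by
          rw [norm_sub_rev]
          exact norm_sub_norm_le w z
        rw [hR0 z (by linarith), hR0 w (by linarith)]
        simpa using hτ.le
    · push Not at hz
      have h5 : ‖z‖ - ‖w‖ ≤ ‖z - w‖ := norm_sub_norm_le z w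
      rw [hR0 z (by linarith), hR0 w (by linarith)]
      simpa using hτ.le
  obtain ⟨ρ, hρ, huc⟩ := huc
  set N : ℝ := N1 + B + 2 * B / ρ with hN
  have hNp : 0 < N := by positivity
  set m' : Z → ℝ := fun _ => 1 / N with hm'
  have hmp : ∀ z, 0 < m' z := fun z => by positivity
  have hdiv : ∀ z w : Z, ‖z - w‖ / m' z = N * ‖z - w‖ := by
    intro z w
    rw [hm']
    simp only
    rw [div_div_eq_mul_div, div_one]
    ring
  have hbu : ∀ w ∈ (univ : Set Z), |h w| ≤ B := fun w _ => hb w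
  set f : Z → ℝ := ic univ h m' with hf
  have hfle : ∀ z w, f z ≤ h w + N * ‖z - w‖ := by
    intro z w
    have := ic_le hbu (hmp z) (mem_univ w)
    rwa [hdiv] at this
  have hfz : ∀ z, f z ≤ h z := by
    intro z
    have := hfle z z
    simpa using this
  have hlef : ∀ z c, (∀ w, c ≤ h w + N * ‖z - w‖) → c ≤ f z := by
    intro z c hcw
    refine le_ic ⟨0, mem_univ _⟩ (fun w _ => ?_)
    rw [hdiv]
    exact hcw w
  have heq : ∀ z, (∀ w, h z ≤ h w + N * ‖z - w‖) → f z = h z := fun z hz =>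
    le_antisymm (hfz z) (hlef z _ hz)
  have hρN : ∀ x, 0 ≤ x → 0 ≤ 2 * B / ρ * x := fun x hx => by positivity
  have hout : ∀ z, R + 1 ≤ ‖z‖ → ∀ w, h z ≤ h w + N * ‖z - w‖ := by
    intro z hz w
    rw [hR0 z (by linarith)]
    by_cases hw : R ≤ ‖w‖
    · rw [hR0 w hw]
      positivity
    · push Not at hw
      have h5 : ‖z‖ - ‖w‖ ≤ ‖z - w‖ := norm_sub_norm_le z w
      have h6 : 1 ≤ ‖z - w‖ := by linarith
      have h7 := (abs_le.1 (hb w)).1
      have h8 : B * 1 ≤ B * ‖z - w‖ := mul_le_mul_of_nonneg_left h6 hB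
      have h9 := hρN _ (norm_nonneg (z - w))
      have h10 : 0 ≤ N1 * ‖z - w‖ := by positivity
      have h11 : N * ‖z - w‖ = N1 * ‖z - w‖ + B * ‖z - w‖ + 2 * B / ρ * ‖z - w‖ := by
        rw [hN]; ring
      rw [h11]
      linarith
  refine ⟨f, ⟨N.toNNReal, ?_⟩, fun z => ?_, fun z hz => ?_, fun z hz => ?_⟩
  · apply LipschitzWith.of_dist_le_mul
    intro x y
    rw [Real.coe_toNNReal _ hNp.le, Real.dist_eq, dist_eq_norm]
    have hone : ∀ x y : Z, f x ≤ f y + N * ‖x - y‖ := by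
      intro x y
      have : f x - N * ‖x - y‖ ≤ f y := by
        apply hlef
        intro w
        have h1 := hfle x w
        have h2 : ‖x - w‖ ≤ ‖x - y‖ + ‖y - w‖ := norm_sub_le_norm_sub_add_norm_sub x y w
        have h3 := mul_le_mul_of_nonneg_left h2 hNp.le
        rw [mul_add] at h3
        linarith
      linarith
    have h1 := hone x y
    have h2 := hone y x
    rw [norm_sub_rev y x] at h2
    rw [abs_le]
    constructor <;> linarith
  · have h1 := hfz z
    have h2 : h z - τ ≤ f z := by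
      apply hlef
      intro w
      by_cases hw : ‖z - w‖ < ρ
      · have h3 := (abs_le.1 (huc z w hw)).2
        have h4 : 0 ≤ N * ‖z - w‖ := by positivity
        linarith
      · push Not at hw
        have h3 := (abs_le.1 (hb w)).1
        have h4 := (abs_le.1 (hb z)).2
        have h5 : 2 * B ≤ 2 * B / ρ * ‖z - w‖ := by
          calc 2 * B = 2 * B / ρ * ρ := by field_simp
            _ ≤ _ := mul_le_mul_of_nonneg_left hw (by positivity)
        have h6 : N * ‖z - w‖ = N1 * ‖z - w‖ + B * ‖z - w‖ + 2 * B / ρ * ‖z - w‖ := by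
          rw [hN]; ring
        have h7 : 0 ≤ N1 * ‖z - w‖ := by positivity
        have h8 : 0 ≤ B * ‖z - w‖ := by positivity
        rw [h6]
        linarith
    rw [abs_le]
    constructor <;> linarith
  · apply heq
    by_cases hzR : ‖z‖ ≤ R + 1
    · intro w
      have h1 := hN1 z hz hzR w
      have h6 : N * ‖z - w‖ = N1 * ‖z - w‖ + B * ‖z - w‖ + 2 * B / ρ * ‖z - w‖ := by
        rw [hN]; ring
      have h7 := hρN _ (norm_nonneg (z - w))
      have h8 : 0 ≤ B * ‖z - w‖ := by positivity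
      rw [h6]
      linarith
    · push Not at hzR
      exact hout z hzR.le
  · rw [heq z (hout z hz)]
    exact hR0 z (by linarith)

/-- The decomposition. -/
lemma stepII (P : Set Z) (h : Z → ℝ) (B R : ℝ) (hB : 0 ≤ B) (hR : 0 ≤ R) (hP : IsCompact P)
    (hPn : P.Nonempty) (hb : ∀ z, |h z| ≤ B) (hc : Continuous h) (hl : ∀ z ∉ P, LL h z)
    (hR0 : ∀ z, R ≤ ‖z‖ → h z = 0) (θ : ℕ → ℝ) (hθ : ∀ k, 0 < θ k) :
    ∃ d : ℕ → Z → ℝ, (∀ k, ∃ L : ℝ≥0, LipschitzWith L (d k)) ∧
      (∀ k z, |d k z| ≤ (B + 2) * (1 / 4) ^ k) ∧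
      (∀ k z, 1 ≤ k → θ k ≤ infDist z P → d k z = 0) ∧
      (∀ z, HasSum (fun k => d k z) (h z)) ∧ (∃ R', ∀ k z, R' ≤ ‖z‖ → d k z = 0) := by
  have key : ∀ k : ℕ, ∃ f : Z → ℝ, (∃ L : ℝ≥0, LipschitzWith L f) ∧
      (∀ z, |f z - h z| ≤ (1 / 4) ^ (k + 1)) ∧
      (∀ z, min (θ k) (θ (k + 1)) ≤ infDist z P → f z = h z) ∧
      (∀ z, R + 1 ≤ ‖z‖ → f z = 0) := fun k =>
    approx P h B R hB hR hP hPn hb hc hl hR0 (lt_min (hθ k) (hθ (k + 1))) (by positivity)
  choose f hfL hfh hfe hf0 using key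
  set d : ℕ → Z → ℝ := fun k z => match k with
    | 0 => f 0 z
    | k + 1 => f (k + 1) z - f k z with hd
  have hsum : ∀ n z, ∑ k ∈ Finset.range (n + 1), d k z = f n z := by
    intro n z
    induction n with
    | zero => simp [hd]
    | succ n ih =>
      rw [Finset.sum_range_succ, ih]
      simp [hd]
  have hbd : ∀ k z, |d k z| ≤ (B + 2) * (1 / 4) ^ k := by
    intro k z
    rcases k with _ | k
    · simp only [hd, pow_zero, mul_one]
      have h1 := hfh 0 z
      have h2 := hb z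
      have h3 : f 0 z = (f 0 z - h z) + h z := by ring
      rw [h3]
      refine (abs_add_le _ _).trans ?_
      norm_num at h1
      linarith
    · simp only [hd]
      have h1 := hfh (k + 1) z
      have h2 := hfh k z
      have h3 : f (k + 1) z - f k z = (f (k + 1) z - h z) - (f k z - h z) := by ring
      rw [h3]
      refine (abs_sub _ _).trans ?_
      have h4 : (1 / 4 : ℝ) ^ (k + 1 + 1) = (1 / 4) * (1 / 4) ^ (k + 1) := by ring
      rw [h4] at h1
      have h5 : (0 : ℝ) < (1 / 4) ^ (k + 1) := by positivity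
      have h6 : 0 ≤ B * (1 / 4 : ℝ) ^ (k + 1) := by positivity
      nlinarith
  refine ⟨d, fun k => ?_, hbd, fun k z hk hz => ?_, fun z => ?_, ⟨R + 1, fun k z hz => ?_⟩⟩
  · rcases k with _ | k
    · exact hfL 0
    · obtain ⟨L1, h1⟩ := hfL (k + 1)
      obtain ⟨L2, h2⟩ := hfL k
      exact ⟨L1 + L2, h1.sub h2⟩
  · rcases k with _ | k
    · omega
    · simp only [hd]
      rw [hfe (k + 1) z ((min_le_left _ _).trans hz), hfe k z ((min_le_right _ _).trans hz)]
      ring
  · have hs : Summable fun k => d k z := by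
      refine Summable.of_norm_bounded (g := fun k => (B + 2) * (1 / 4 : ℝ) ^ k) ?_
        (fun k => by rw [Real.norm_eq_abs]; exact hbd k z)
      exact (summable_geometric_of_lt_one (by norm_num) (by norm_num)).mul_left _
    rw [hs.hasSum_iff_tendsto_nat, ← tendsto_add_atTop_iff_nat 1]
    simp only [hsum]
    rw [tendsto_iff_dist_tendsto_zero]
    have hlim : Tendsto (fun n : ℕ => (1 / 4 : ℝ) ^ (n + 1)) atTop (𝓝 0) :=
      (tendsto_pow_atTop_nhds_zero_of_lt_one (by norm_num) (by norm_num)).comp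
        (tendsto_add_atTop_nat 1)
    refine squeeze_zero (fun _ => dist_nonneg) (fun n => ?_) hlim
    rw [Real.dist_eq]
    exact hfh n z
  · rcases k with _ | k
    · exact hf0 0 z hz
    · simp only [hd]
      rw [hf0 (k + 1) z hz, hf0 k z hz]
      ring

/-- The extension. -/
lemma stepI (S P : Set Z) (h0 : Z → ℝ) (hS : IsCompact S) (hP : IsCompact P) (hPn : P.Nonempty)
    (hPS : P ⊆ S) (hc : ContinuousOn h0 S)
    (hL : ∀ z ∈ S \ P, ∃ r > 0, ∃ L : ℝ≥0, LipschitzOnWith L h0 (S ∩ ball z r)) :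
    ∃ (h : Z → ℝ) (B R : ℝ), 0 ≤ B ∧ 0 ≤ R ∧ (∀ z ∈ S, h z = h0 z) ∧ (∀ z, |h z| ≤ B) ∧
      Continuous h ∧ (∀ z ∉ P, LL h z) ∧ (∀ z, R ≤ ‖z‖ → h z = 0) ∧
      ∀ z₀ ∈ S \ P, TanExt S h0 h z₀ := by
  have hSn : S.Nonempty := hPn.mono hPS
  obtain ⟨B', hB'⟩ := hS.exists_bound_of_continuousOn hc
  set B : ℝ := max B' 0 with hBdef
  have hB : 0 ≤ B := le_max_right _ _
  have hbS : ∀ w ∈ S, |h0 w| ≤ B := fun w hw => by
    have := hB' w hw
    rw [Real.norm_eq_abs] at this
    exact this.trans (le_max_left _ _)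
  -- continuous extension
  obtain ⟨g₀, hg₀⟩ := ContinuousMap.exists_restrict_eq hS.isClosed
    (⟨S.domRestrict h0, hc.domRestrict⟩ : C(S, ℝ))
  have hg₀S : ∀ z ∈ S, g₀ z = h0 z := fun z hz => by
    have := DFunLike.congr_fun hg₀ (⟨z, hz⟩ : S)
    exact this
  set e₀ : Z → ℝ := fun z => max (-B) (min B (g₀ z)) with he₀
  have he₀c : Continuous e₀ := by
    rw [he₀]
    have := g₀.continuous
    fun_prop
  have he₀b : ∀ z, |e₀ z| ≤ B := fun z => by
    rw [abs_le]
    refine ⟨le_max_left _ _, max_le (by linarith) (min_le_left _ _)⟩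
  have he₀S : ∀ z ∈ S, e₀ z = h0 z := fun z hz => by
    have h1 := abs_le.1 (hbS z hz)
    simp only [he₀]
    rw [hg₀S z hz, min_eq_right h1.2, max_eq_right h1.1]
  set δ : Z → ℝ := fun z => infDist z P with hδ
  have hδL : ∀ x y, |δ x - δ y| ≤ ‖x - y‖ := by
    intro x y
    have := (lipschitz_infDist_pt P).dist_le_mul x y
    rw [Real.dist_eq, dist_eq_norm] at this
    simpa using this
  have hδc : Continuous δ := continuous_infDist_pt P
  have hδ0 : ∀ z, 0 ≤ δ z := fun z => infDist_nonneg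
  have hδp : ∀ z ∉ P, 0 < δ z := fun z hz =>
    (hP.isClosed.notMem_iff_infDist_pos hPn).1 hz
  have hδP : ∀ z ∈ P, δ z = 0 := fun z hz => infDist_zero_of_mem hz
  -- local Lipschitz constants
  have hQ1 : ∀ z₀ ∉ P, ∃ r > 0, ∃ a > 0, ∀ z ∈ ball z₀ r, z ∈ S → ∀ w ∈ S,
      h0 z + ‖z - w‖ ≤ h0 w + ‖z - w‖ / a := by
    intro z₀ hz₀
    by_cases hzS : z₀ ∈ S
    · obtain ⟨r, hr, L, hLip⟩ := hL z₀ ⟨hzS, hz₀⟩
      refine ⟨r / 2, by positivity, 1 / (1 + L + 4 * B / r), by positivity, fun z hz hzS w hw => ?_⟩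
      have h2 : h0 z - h0 w ≤ ((L : ℝ) + 4 * B / r) * ‖z - w‖ :=
        cmp (T := S) hr L.2 hB hbS (fun x hx y hy => by
        have := hLip.dist_le_mul x hx y hy
        rwa [Real.dist_eq, dist_eq_norm] at this) hzS hz hw
      rw [div_div_eq_mul_div, div_one]
      have h3 : ‖z - w‖ * (1 + L + 4 * B / r) = ‖z - w‖ + (L + 4 * B / r) * ‖z - w‖ := by ring
      rw [h3]
      linarith
    · obtain ⟨r, hr, hb⟩ := Metric.isOpen_iff.1 hS.isClosed.isOpen_compl z₀ hzS
      exact ⟨r, hr, 1, one_pos, fun z hz hzS => absurd hzS (hb hz)⟩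
  have hQ2 : ∀ z₀ ∉ P, ∃ r > 0, ∃ a > 0, ∀ z ∈ ball z₀ r, ∀ w,
      e₀ z - δ z / 2 ≤ e₀ w + ‖z - w‖ / a := by
    intro z₀ hz₀
    have hρ := hδp z₀ hz₀
    obtain ⟨r, hr, hcr⟩ := Metric.continuousAt_iff.1 he₀c.continuousAt (δ z₀ / 8) (by positivity)
    refine ⟨min (δ z₀ / 4) (r / 2), lt_min (by positivity) (by positivity), 1 / (1 + 4 * B / r),
      by positivity, fun z hz w => ?_⟩
    rw [div_div_eq_mul_div, div_one]
    have h3 : ‖z - w‖ * (1 + 4 * B / r) = ‖z - w‖ + 4 * B / r * ‖z - w‖ := by ring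
    rw [h3]
    have hz1 : z ∈ ball z₀ (δ z₀ / 4) := ball_subset_ball (min_le_left _ _) hz
    have hz2 : z ∈ ball z₀ (r / 2) := ball_subset_ball (min_le_right _ _) hz
    have hδz : 3 / 4 * δ z₀ ≤ δ z := by
      rw [mem_ball, dist_eq_norm, norm_sub_rev] at hz1
      have := (abs_le.1 (hδL z₀ z)).2
      linarith
    have hn := norm_nonneg (z - w)
    by_cases hw : w ∈ ball z₀ r
    · have h4 := hcr hw
      have h5 := hcr (ball_subset_ball (by linarith) hz2 : z ∈ ball z₀ r)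
      rw [Real.dist_eq, abs_lt] at h4 h5
      have h6 : 0 ≤ 4 * B / r * ‖z - w‖ := by positivity
      linarith
    · have h4 := (abs_le.1 (he₀b z)).2
      have h5 := (abs_le.1 (he₀b w)).1
      rw [mem_ball, dist_eq_norm] at hw hz2
      push Not at hw
      have h6 : r / 2 ≤ ‖z - w‖ := by
        have : w - z₀ = (z - z₀) - (z - w) := by abel
        have h4 := norm_sub_le (z - z₀) (z - w)
        rw [← this] at h4
        linarith
      have h7 : 2 * B ≤ 4 * B / r * ‖z - w‖ := by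
        calc 2 * B = 4 * B / r * (r / 2) := by field_simp; ring
          _ ≤ _ := mul_le_mul_of_nonneg_left h6 (by positivity)
      have := hδ0 z
      linarith
  obtain ⟨m, hm1, hm2, hm3⟩ := exists_min P
    (fun z a => (z ∈ S → ∀ w ∈ S, h0 z + ‖z - w‖ ≤ h0 w + ‖z - w‖ / a) ∧
      ∀ w, e₀ z - δ z / 2 ≤ e₀ w + ‖z - w‖ / a)
    (fun z a a' h1 h2 h3 => ⟨fun hz w hw => (h3.1 hz w hw).trans (by
      have := div_le_div_of_nonneg_left (norm_nonneg (z - w)) h1 h2
      linarith), fun w => (h3.2 w).trans (by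
      have := div_le_div_of_nonneg_left (norm_nonneg (z - w)) h1 h2
      linarith)⟩)
    (fun z₀ hz₀ => by
      obtain ⟨r, hr, a, ha, h1⟩ := hQ1 z₀ hz₀
      obtain ⟨r', hr', a', ha', h2⟩ := hQ2 z₀ hz₀
      refine ⟨min r r', lt_min hr hr', min a a', lt_min ha ha', fun z hz _ => ⟨fun hzS w hw => ?_,
        fun w => ?_⟩⟩
      · have h3 := h1 z (ball_subset_ball (min_le_left _ _) hz) hzS w hw
        have := div_le_div_of_nonneg_left (norm_nonneg (z - w)) (lt_min ha ha') (min_le_left a a')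
        linarith
      · have h3 := h2 z (ball_subset_ball (min_le_right _ _) hz) w
        have := div_le_div_of_nonneg_left (norm_nonneg (z - w)) (lt_min ha ha') (min_le_right a a')
        linarith)
  set g : Z → ℝ := ic S h0 m with hg
  set e : Z → ℝ := ic univ e₀ m with he
  have hbe : ∀ w ∈ (univ : Set Z), |e₀ w| ≤ B := fun w _ => he₀b w
  have hgS : ∀ z ∈ S, z ∉ P → g z = h0 z := by
    intro z hz hzP
    refine le_antisymm ?_ (le_ic hSn fun w hw => ?_)
    · have := ic_le hbS (hm3 z hzP).1 hz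
      simpa using this
    · have := (hm3 z hzP).2.1 hz w hw
      have := norm_nonneg (z - w)
      linarith
  have heu : ∀ z ∉ P, e z ≤ e₀ z := by
    intro z hz
    have := ic_le hbe (hm3 z hz).1 (mem_univ z)
    simpa using this
  have hel : ∀ z ∉ P, e₀ z - δ z / 2 ≤ e z := fun z hz =>
    le_ic ⟨0, mem_univ _⟩ fun w _ => (hm3 z hz).2.2 w
  have hgLL : ∀ z ∉ P, LL g z := fun z hz => ic_LL hbS hSn hB hm2 hm1 (hm3 z hz).1
  have heLL : ∀ z ∉ P, LL e z := fun z hz => ic_LL hbe ⟨0, mem_univ _⟩ hB hm2 hm1 (hm3 z hz).1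
  have hδLL : ∀ z, LL δ z := fun z => LL.of_lip zero_le_one (fun x y => by
    rw [one_mul]; exact hδL x y) z
  classical
  set hh : Z → ℝ := fun z => if z ∈ P then h0 z else max (e z - δ z) (min (e z + δ z) (g z))
    with hhh
  have hPev : ∀ z ∉ P, ∀ᶠ z' in 𝓝 z, z' ∉ P := fun z hz => hP.isClosed.isOpen_compl.mem_nhds hz
  have hhP : ∀ z ∈ P, hh z = h0 z := fun z hz => by simp only [hhh]; rw [if_pos hz]
  have hhnP : ∀ z ∉ P, hh z = max (e z - δ z) (min (e z + δ z) (g z)) := fun z hz => by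
    simp only [hhh]; rw [if_neg hz]
  have hhLL : ∀ z ∉ P, LL hh z := by
    intro z hz
    have h1 : LL (fun z => max (e z - δ z) (min (e z + δ z) (g z))) z :=
      ((heLL z hz).sub (hδLL z)).max (((heLL z hz).add (hδLL z)).min (hgLL z hz))
    exact h1.congr ((hPev z hz).mono fun z' hz' => hhnP z' hz')
  have hhe : ∀ z, |hh z - e₀ z| ≤ 3 / 2 * δ z := by
    intro z
    by_cases hz : z ∈ P
    · rw [hhP z hz, he₀S z (hPS hz), sub_self, abs_zero]
      have := hδ0 z
      positivity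
    · rw [hhnP z hz]
      have h1 := heu z hz
      have h2 := hel z hz
      have h3 : e z - δ z ≤ max (e z - δ z) (min (e z + δ z) (g z)) := le_max_left _ _
      have h4 : max (e z - δ z) (min (e z + δ z) (g z)) ≤ e z + δ z :=
        max_le (by linarith [hδ0 z]) (min_le_left _ _)
      rw [abs_le]
      constructor <;> linarith [hδ0 z]
  have hhS : ∀ z ∈ S, hh z = h0 z := by
    intro z hz
    by_cases hzP : z ∈ P
    · exact hhP z hzP
    · rw [hhnP z hzP, hgS z hz hzP, ← he₀S z hz, min_eq_right, max_eq_right]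
      · have := heu z hzP
        have := hδ0 z
        linarith
      · have := hel z hzP
        have := hδ0 z
        linarith
  have hhc : Continuous hh := by
    rw [continuous_iff_continuousAt]
    intro z
    by_cases hz : z ∈ P
    · rw [ContinuousAt, tendsto_iff_dist_tendsto_zero]
      have hlim : Tendsto (fun z' => 3 / 2 * δ z' + |e₀ z' - e₀ z|) (𝓝 z) (𝓝 0) := by
        have h1 : Continuous fun z' => 3 / 2 * δ z' + |e₀ z' - e₀ z| := by fun_prop
        have h2 := h1.tendsto z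
        simpa [hδP z hz] using h2
      refine squeeze_zero (fun _ => dist_nonneg) (fun z' => ?_) hlim
      rw [Real.dist_eq, hhP z hz, ← he₀S z (hPS hz)]
      have : hh z' - e₀ z = (hh z' - e₀ z') + (e₀ z' - e₀ z) := by ring
      rw [this]
      exact (abs_add_le _ _).trans (add_le_add (hhe z') le_rfl)
    · exact (hhLL z hz).continuousAt
  -- cut-off
  obtain ⟨R₁', hR₁'⟩ := hS.isBounded.subset_closedBall 0
  set R₁ : ℝ := max R₁' 0 with hR₁
  have hR₁0 : 0 ≤ R₁ := le_max_right _ _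
  have hSR : ∀ z ∈ S, ‖z‖ ≤ R₁ := fun z hz => by
    have := hR₁' hz
    rw [mem_closedBall, dist_zero_right] at this
    exact this.trans (le_max_left _ _)
  set κ : Z → ℝ := fun z => (B + 1) * max 0 (min 1 (R₁ + 1 - ‖z‖)) with hκ
  have hκc : Continuous κ := by rw [hκ]; fun_prop
  have hκ0 : ∀ z, 0 ≤ κ z := fun z => mul_nonneg (by linarith) (le_max_left _ _)
  have hκ1 : ∀ z, κ z ≤ B + 1 := fun z => by
    have h1 : max 0 (min 1 (R₁ + 1 - ‖z‖)) ≤ 1 := max_le zero_le_one (min_le_left _ _)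
    have := mul_le_mul_of_nonneg_left h1 (by linarith : (0 : ℝ) ≤ B + 1)
    simpa [hκ] using this
  have hκS : ∀ z ∈ S, κ z = B + 1 := fun z hz => by
    have := hSR z hz
    simp only [hκ]
    rw [min_eq_left (by linarith), max_eq_right zero_le_one, mul_one]
  have hκR : ∀ z, R₁ + 1 ≤ ‖z‖ → κ z = 0 := fun z hz => by
    simp only [hκ]
    rw [min_eq_right (by linarith), max_eq_left (by linarith), mul_zero]
  have hκL : ∀ z, LL κ z := fun z => LL.of_lip (by linarith : (0 : ℝ) ≤ B + 1) (fun x y => by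
    simp only [hκ]
    rw [← mul_sub, abs_mul, abs_of_nonneg (by linarith : (0 : ℝ) ≤ B + 1)]
    refine mul_le_mul_of_nonneg_left ?_ (by linarith)
    refine (abs_max_sub_max_le_max _ _ _ _).trans ?_
    refine max_le (by simp) ?_
    refine (abs_min_sub_min_le_max _ _ _ _).trans ?_
    refine max_le (by simp) ?_
    have h1 : R₁ + 1 - ‖x‖ - (R₁ + 1 - ‖y‖) = -(‖x‖ - ‖y‖) := by ring
    rw [h1, abs_neg]
    exact abs_norm_sub_norm_le x y) z
  have hκnL : ∀ z, LL (fun z => -κ z) z := fun z => by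
    obtain ⟨r, hr, K, hK, h1⟩ := hκL z
    refine ⟨r, hr, K, hK, fun x hx y hy => ?_⟩
    have h2 : -κ x - -κ y = -(κ x - κ y) := by ring
    rw [h2, abs_neg]
    exact h1 x hx y hy
  set h : Z → ℝ := fun z => max (-κ z) (min (κ z) (hh z)) with hhdef
  have hb : ∀ z, |h z| ≤ κ z := fun z => by
    rw [abs_le]
    exact ⟨le_max_left _ _, max_le (by linarith [hκ0 z]) (min_le_left _ _)⟩
  refine ⟨h, B + 1, R₁ + 1, by linarith, by linarith, fun z hz => ?_, fun z => (hb z).trans (hκ1 z),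
    ?_, fun z hz => ?_, fun z hz => ?_, fun z₀ hz₀ => ?_⟩
  · have h1 := abs_le.1 (hbS z hz)
    simp only [hhdef]
    rw [hκS z hz, hhS z hz, min_eq_right (by linarith), max_eq_right (by linarith)]
  · rw [hhdef]
    fun_prop
  · exact (hκnL z).max ((hκL z).min (hhLL z hz))
  · have h1 := hb z
    rw [hκR z hz] at h1
    exact abs_nonpos_iff.1 h1
  · obtain ⟨hzS, hzP⟩ := hz₀
    -- `h = g` near `z₀`
    have hgz : g z₀ = h0 z₀ := hgS z₀ hzS hzP
    have hgcont := (hgLL z₀ hzP).continuousAt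
    have hecont := (heLL z₀ hzP).continuousAt
    have hδcont := hδc.continuousAt (x := z₀)
    have hκcont := hκc.continuousAt (x := z₀)
    have hev : ∀ᶠ z in 𝓝 z₀, h z = g z := by
      have h1 : ∀ᶠ z in 𝓝 z₀, e z - δ z < g z := by
        refine (hecont.sub hδcont).eventually_lt hgcont ?_
        change e z₀ - δ z₀ < g z₀
        rw [hgz, ← he₀S z₀ hzS]
        linarith [heu z₀ hzP, hδp z₀ hzP]
      have h2 : ∀ᶠ z in 𝓝 z₀, g z < e z + δ z := by
        refine hgcont.eventually_lt (hecont.add hδcont) ?_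
        change g z₀ < e z₀ + δ z₀
        rw [hgz, ← he₀S z₀ hzS]
        linarith [hel z₀ hzP, hδp z₀ hzP]
      have h3 : ∀ᶠ z in 𝓝 z₀, g z < κ z := by
        refine hgcont.eventually_lt hκcont ?_
        rw [hgz, hκS z₀ hzS]
        linarith [(abs_le.1 (hbS z₀ hzS)).2]
      have h4 : ∀ᶠ z in 𝓝 z₀, -κ z < g z := by
        refine hκcont.neg.eventually_lt hgcont ?_
        change -κ z₀ < g z₀
        rw [hgz, hκS z₀ hzS]
        linarith [(abs_le.1 (hbS z₀ hzS)).1]
      filter_upwards [h1, h2, h3, h4, hPev z₀ hzP] with z h1 h2 h3 h4 h5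
      have h6 : hh z = g z := by
        rw [hhnP z h5, min_eq_right h2.le, max_eq_right h1.le]
      simp only [hhdef]
      rw [h6, min_eq_right h3.le, max_eq_right h4.le]
    obtain ⟨r, hr, hev⟩ := Metric.eventually_nhds_iff_ball.1 hev
    intro A l c hc0 ⟨δ₁, hδ₁, hflat, hlip⟩ ε hε
    obtain ⟨δ', hδ', htan⟩ := ic_tan hbS hm1 (hm3 z₀ hzP).1 hzS
      (fun w hw => (hm3 z₀ hzP).2.1 hzS w hw) A l c hδ₁ hflat hlip hε
    refine ⟨min δ' r, lt_min hδ' hr, fun z hz v hv hzv => ?_⟩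
    rw [hev z (ball_subset_ball (min_le_right _ _) hz),
      hev _ (ball_subset_ball (min_le_right _ _) hzv)]
    have hz1 := ball_subset_ball (min_le_left δ' r) hz
    have hzv1 := ball_subset_ball (min_le_left δ' r) hzv
    have h1 := htan z hz1 v hv hzv1
    have h2 := htan (z + v) hzv1 (-v) (A.neg_mem hv) (by rwa [add_neg_cancel_right])
    rw [add_neg_cancel_right, map_neg, norm_neg] at h2
    rw [abs_le]
    constructor <;> linarith

theorem b5 : B5Statement := by
  intro S P h0 hS hP hPn hPS hc hL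
  obtain ⟨h, B, R, hB, hR, hhS, hb, hhc, hl, hR0, htan⟩ := stepI S P h0 hS hP hPn hPS hc hL
  refine ⟨B + 2, by linarith, fun θ hθ => ?_⟩
  obtain ⟨d, h1, h2, h3, h4, h5⟩ := stepII P h B R hB hR hP hPn hb hhc hl hR0 θ hθ
  exact ⟨h, d, hhS, h1, h2, h3, h4, h5, htan⟩

end Pool.Agent.Helper19Sob
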