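import Pool.Agent.Helper27_Sob.Statements

/-!
# B5, first part: infimal convolutions with variable slope
-/

set_option autoImplicit false

open Set Filter Topology Metric MeasureTheory
open scoped ENNReal NNReal

namespace Pool.Agent.Helper19Sob

open Pool.Agent.Helper27Sob

/-- `f` is Lipschitz near `z₀`. -/
def LL (f : Z → ℝ) (z₀ : Z) : Prop :=
  ∃ r > 0, ∃ K ≥ 0, ∀ x ∈ ball z₀ r, ∀ y ∈ ball z₀ r, |f x - f y| ≤ K * ‖x - y‖

lemma LL.of_lip {f : Z → ℝ} {K : ℝ} (hK : 0 ≤ K) (h : ∀ x y, |f x - f y| ≤ K * ‖x - y‖) (z₀ : Z) :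
    LL f z₀ := ⟨1, one_pos, K, hK, fun x _ y _ => h x y⟩

lemma LL.lattice {f g : Z → ℝ} {z₀ : Z} (op : ℝ → ℝ → ℝ)
    (hop : ∀ a b c d, |op a b - op c d| ≤ |a - c| + |b - d|) (hf : LL f z₀) (hg : LL g z₀) :
    LL (fun z => op (f z) (g z)) z₀ := by
  obtain ⟨r, hr, K, hK, h1⟩ := hf
  obtain ⟨r', hr', K', hK', h2⟩ := hg
  refine ⟨min r r', lt_min hr hr', K + K', add_nonneg hK hK', fun x hx y hy => ?_⟩
  have hx1 := ball_subset_ball (min_le_left _ _) hx
  have hx2 := ball_subset_ball (min_le_right _ _) hx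
  have hy1 := ball_subset_ball (min_le_left _ _) hy
  have hy2 := ball_subset_ball (min_le_right _ _) hy
  calc _ ≤ |f x - f y| + |g x - g y| := hop _ _ _ _
    _ ≤ K * ‖x - y‖ + K' * ‖x - y‖ := add_le_add (h1 x hx1 y hy1) (h2 x hx2 y hy2)
    _ = _ := by ring

lemma LL.max {f g : Z → ℝ} {z₀ : Z} (hf : LL f z₀) (hg : LL g z₀) :
    LL (fun z => max (f z) (g z)) z₀ := by
  refine LL.lattice _ (fun a b c d => ?_) hf hg
  refine (abs_max_sub_max_le_max a b c d).trans ?_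
  exact max_le (le_add_of_nonneg_right (abs_nonneg _)) (le_add_of_nonneg_left (abs_nonneg _))

lemma LL.min {f g : Z → ℝ} {z₀ : Z} (hf : LL f z₀) (hg : LL g z₀) :
    LL (fun z => min (f z) (g z)) z₀ := by
  refine LL.lattice _ (fun a b c d => ?_) hf hg
  refine (abs_min_sub_min_le_max a b c d).trans ?_
  exact max_le (le_add_of_nonneg_right (abs_nonneg _)) (le_add_of_nonneg_left (abs_nonneg _))

lemma LL.add {f g : Z → ℝ} {z₀ : Z} (hf : LL f z₀) (hg : LL g z₀) :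
    LL (fun z => f z + g z) z₀ := by
  refine LL.lattice _ (fun a b c d => ?_) hf hg
  have : a + b - (c + d) = (a - c) + (b - d) := by ring
  rw [this]
  exact abs_add_le _ _

lemma LL.sub {f g : Z → ℝ} {z₀ : Z} (hf : LL f z₀) (hg : LL g z₀) :
    LL (fun z => f z - g z) z₀ := by
  refine LL.lattice _ (fun a b c d => ?_) hf hg
  have : a - b - (c - d) = (a - c) - (b - d) := by ring
  rw [this]
  exact abs_sub _ _

lemma LL.congr {f g : Z → ℝ} {z₀ : Z} (hf : LL f z₀) (h : ∀ᶠ z in 𝓝 z₀, g z = f z) :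
    LL g z₀ := by
  obtain ⟨r, hr, K, hK, h1⟩ := hf
  obtain ⟨r', hr', h2⟩ := Metric.eventually_nhds_iff_ball.1 h
  refine ⟨Min.min r r', lt_min hr hr', K, hK, fun x hx y hy => ?_⟩
  rw [h2 x (ball_subset_ball (min_le_right _ _) hx), h2 y (ball_subset_ball (min_le_right _ _) hy)]
  exact h1 x (ball_subset_ball (min_le_left _ _) hx) y (ball_subset_ball (min_le_left _ _) hy)

lemma LL.continuousAt {f : Z → ℝ} {z₀ : Z} (hf : LL f z₀) : ContinuousAt f z₀ := by
  obtain ⟨r, hr, K, hK, h1⟩ := hf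
  rw [ContinuousAt, tendsto_iff_dist_tendsto_zero]
  have hlim : Tendsto (fun z => K * ‖z - z₀‖) (𝓝 z₀) (𝓝 0) := by
    have : Continuous fun z : Z => K * ‖z - z₀‖ := by fun_prop
    have h2 := this.tendsto z₀
    simpa using h2
  refine squeeze_zero' (Eventually.of_forall fun _ => dist_nonneg) ?_ hlim
  filter_upwards [ball_mem_nhds z₀ hr] with z hz
  rw [Real.dist_eq]
  exact h1 z hz z₀ (mem_ball_self hr)

/-- Lipschitz minorants. -/
lemma exists_min (P : Set Z) (Q : Z → ℝ → Prop)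
    (hmono : ∀ z a a', 0 < a' → a' ≤ a → Q z a → Q z a')
    (hloc : ∀ z₀ ∉ P, ∃ r > 0, ∃ a > 0, ∀ z ∈ ball z₀ r, z ∉ P → Q z a) :
    ∃ m : Z → ℝ, (∀ z z', |m z - m z'| ≤ ‖z - z'‖) ∧ (∀ z, m z ≤ 1) ∧
      ∀ z ∉ P, 0 < m z ∧ Q z (m z) := by
  set A : Z → Set ℝ := fun z =>
    {r : ℝ | r = 0 ∨ (0 < r ∧ r ≤ 1 ∧ ∀ z' ∈ ball z r, z' ∉ P → Q z' r)} with hA
  have hne : ∀ z, (A z).Nonempty := fun z => ⟨0, Or.inl rfl⟩
  have hbd : ∀ z, ∀ r ∈ A z, r ≤ 1 := by
    rintro z r (rfl | h)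
    · norm_num
    · exact h.2.1
  have hbdd : ∀ z, BddAbove (A z) := fun z => ⟨1, fun r hr => hbd z r hr⟩
  set s : Z → ℝ := fun z => sSup (A z) with hs
  have hs0 : ∀ z, 0 ≤ s z := fun z => le_csSup (hbdd z) (Or.inl rfl)
  have hs1 : ∀ z, s z ≤ 1 := fun z => csSup_le (hne z) (hbd z)
  have hlip : ∀ z z', s z ≤ s z' + ‖z - z'‖ := by
    intro z z'
    apply csSup_le (hne z)
    rintro r (rfl | ⟨h1, h2, h3⟩)
    · have := hs0 z'
      positivity
    · by_cases hr : r ≤ ‖z - z'‖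
      · have := hs0 z'
        linarith
      · push Not at hr
        have hmem : r - ‖z - z'‖ ∈ A z' := by
          right
          refine ⟨by linarith, by linarith [norm_nonneg (z - z')], fun z'' hz'' hP => ?_⟩
          refine hmono z'' r _ (by linarith) (by linarith [norm_nonneg (z - z')]) (h3 z'' ?_ hP)
          rw [mem_ball, dist_eq_norm] at hz'' ⊢
          calc ‖z'' - z‖ = ‖(z'' - z') - (z - z')‖ := by congr 1; abel
            _ ≤ ‖z'' - z'‖ + ‖z - z'‖ := norm_sub_le _ _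
            _ < r := by linarith
        have := le_csSup (hbdd z') hmem
        have h4 : s z' = sSup (A z') := rfl
        linarith
  have hspos : ∀ z ∉ P, 0 < s z := by
    intro z hz
    obtain ⟨r, hr, a, ha, h⟩ := hloc z hz
    have hmem : min (min r a) 1 ∈ A z := by
      right
      refine ⟨lt_min (lt_min hr ha) one_pos, min_le_right _ _, fun z' hz' hP => ?_⟩
      have h1 : min (min r a) 1 ≤ r := (min_le_left _ _).trans (min_le_left _ _)
      have h2 : min (min r a) 1 ≤ a := (min_le_left _ _).trans (min_le_right _ _)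
      exact hmono z' a _ (lt_min (lt_min hr ha) one_pos) h2 (h z' (ball_subset_ball h1 hz') hP)
    exact lt_of_lt_of_le (lt_min (lt_min hr ha) one_pos) (le_csSup (hbdd z) hmem)
  refine ⟨fun z => s z / 2, fun z z' => ?_, fun z => ?_, fun z hz => ?_⟩
  · have h1 := hlip z z'
    have h2 := hlip z' z
    rw [norm_sub_rev] at h2
    have h3 := norm_nonneg (z - z')
    rw [abs_le]
    constructor <;> simp only <;> linarith
  · have := hs1 z
    have := hs0 z
    simp only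
    linarith
  · have hp := hspos z hz
    refine ⟨by positivity, ?_⟩
    obtain ⟨r, hr, hlt⟩ := exists_lt_of_lt_csSup (hne z) (show s z / 2 < sSup (A z) by
      have : s z = sSup (A z) := rfl
      linarith)
    rcases hr with rfl | ⟨h1, h2, h3⟩
    · linarith
    · exact hmono z r _ (by positivity) hlt.le (h3 z (mem_ball_self h1) hz)

/-- infimal convolution with variable slope -/
noncomputable def ic (T : Set Z) (q m : Z → ℝ) (z : Z) : ℝ := ⨅ w : T, (q w + ‖z - w‖ / m z)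

section
variable {T : Set Z} {q m : Z → ℝ} {B : ℝ} (hq : ∀ w ∈ T, |q w| ≤ B)

include hq in
lemma ic_bdd {z : Z} (hm : 0 < m z) : BddBelow (range fun w : T => q w + ‖z - w‖ / m z) := by
  refine ⟨-B, ?_⟩
  rintro _ ⟨w, rfl⟩
  have h1 := (abs_le.1 (hq w w.2)).1
  have h2 : 0 ≤ ‖z - w‖ / m z := by positivity
  simp only
  linarith

include hq in
lemma ic_le {z w : Z} (hm : 0 < m z) (hw : w ∈ T) : ic T q m z ≤ q w + ‖z - w‖ / m z :=
  ciInf_le (ic_bdd hq hm) (⟨w, hw⟩ : T)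

lemma le_ic {z : Z} {c : ℝ} (hT : T.Nonempty) (h : ∀ w ∈ T, c ≤ q w + ‖z - w‖ / m z) :
    c ≤ ic T q m z := by
  have : Nonempty T := hT.to_subtype
  exact le_ciInf fun w => h w w.2

lemma ic_near {z : Z} {τ : ℝ} (hT : T.Nonempty) (hτ : 0 < τ) :
    ∃ w ∈ T, q w + ‖z - w‖ / m z < ic T q m z + τ := by
  have : Nonempty T := hT.to_subtype
  obtain ⟨w, hw⟩ := exists_lt_of_ciInf_lt (show ic T q m z < ic T q m z + τ by linarith)
  exact ⟨w, w.2, hw⟩

include hq in
/-- locally Lipschitz where the slope is finite -/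
lemma ic_LL (hT : T.Nonempty) (hB : 0 ≤ B) (hm1 : ∀ z, m z ≤ 1)
    (hml : ∀ z z', |m z - m z'| ≤ ‖z - z'‖) {z₀ : Z} (hz₀ : 0 < m z₀) : LL (ic T q m) z₀ := by
  obtain ⟨w₀, hw₀⟩ := hT
  set a : ℝ := m z₀ / 2 with ha
  have ha0 : 0 < a := by positivity
  set D : ℝ := 2 * B + 1 + ‖z₀ - w₀‖ + a with hD
  have hD0 : 0 ≤ D := by positivity
  have hma : ∀ z ∈ ball z₀ a, a ≤ m z := by
    intro z hz
    rw [mem_ball, dist_eq_norm, norm_sub_rev] at hz
    have := (abs_le.1 (hml z₀ z)).2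
    linarith
  have key : ∀ z ∈ ball z₀ a, ∀ z' ∈ ball z₀ a,
      ic T q m z' ≤ ic T q m z + (1 / a + D / a ^ 2) * ‖z - z'‖ := by
    intro z hz z' hz'
    have hmz := hma z hz
    have hmz' := hma z' hz'
    have hpz : 0 < m z := by linarith
    have hpz' : 0 < m z' := by linarith
    apply le_of_forall_pos_le_add
    intro τ' hτ'
    set τ := min τ' 1 with hτ
    have hτ0 : 0 < τ := lt_min hτ' one_pos
    have hτ1 : τ ≤ 1 := min_le_right _ _
    obtain ⟨w, hw, hlt⟩ := ic_near (q := q) (m := m) (z := z) ⟨w₀, hw₀⟩ hτ0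
    have h1 := ic_le hq hpz hw₀
    have h2 := (abs_le.1 (hq w hw)).1
    have h3 := (abs_le.1 (hq w₀ hw₀)).2
    have hzw : ‖z - w‖ ≤ D := by
      have h4 : ‖z - w‖ / m z ≤ 2 * B + 1 + ‖z - w₀‖ / m z := by linarith
      rw [div_le_iff₀ hpz] at h4
      have h5 : (2 * B + 1 + ‖z - w₀‖ / m z) * m z = (2 * B + 1) * m z + ‖z - w₀‖ := by
        field_simp
      rw [h5] at h4
      have h6 : (2 * B + 1) * m z ≤ (2 * B + 1) * 1 :=
        mul_le_mul_of_nonneg_left (hm1 z) (by positivity)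
      have h7 : ‖z - w₀‖ ≤ ‖z - z₀‖ + ‖z₀ - w₀‖ := by
        have : z - w₀ = (z - z₀) + (z₀ - w₀) := by abel
        rw [this]
        exact norm_add_le _ _
      rw [mem_ball, dist_eq_norm] at hz
      linarith
    have h8 := ic_le hq hpz' hw
    have h9 : ‖z' - w‖ / m z' ≤ ‖z - w‖ / m z + (1 / a + D / a ^ 2) * ‖z - z'‖ := by
      have e1 : ‖z' - w‖ ≤ ‖z - w‖ + ‖z - z'‖ := by
        have : z' - w = (z - w) - (z - z') := by abel
        rw [this]
        exact norm_sub_le _ _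
      have e2 : ‖z' - w‖ / m z' ≤ (‖z - w‖ + ‖z - z'‖) / m z' :=
        div_le_div_of_nonneg_right e1 hpz'.le
      have e3 : ‖z - z'‖ / m z' ≤ 1 / a * ‖z - z'‖ := by
        rw [div_mul_eq_mul_div, one_mul]
        exact div_le_div_of_nonneg_left (norm_nonneg _) ha0 hmz'
      have e4 : ‖z - w‖ / m z' - ‖z - w‖ / m z ≤ D / a ^ 2 * ‖z - z'‖ := by
        have e5 : ‖z - w‖ / m z' - ‖z - w‖ / m z = ‖z - w‖ * (m z - m z') / (m z' * m z) := by
          field_simp
        rw [e5, div_le_iff₀ (by positivity)]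
        have e6 : m z - m z' ≤ ‖z - z'‖ := (abs_le.1 (hml z z')).2
        have e7 : a ^ 2 ≤ m z' * m z := by
          rw [pow_two]
          exact mul_le_mul hmz' hmz ha0.le hpz'.le
        calc ‖z - w‖ * (m z - m z') ≤ D * ‖z - z'‖ := by
              calc ‖z - w‖ * (m z - m z') ≤ ‖z - w‖ * ‖z - z'‖ :=
                    mul_le_mul_of_nonneg_left e6 (norm_nonneg _)
                _ ≤ _ := mul_le_mul_of_nonneg_right hzw (norm_nonneg _)
          _ = D / a ^ 2 * ‖z - z'‖ * a ^ 2 := by field_simp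
          _ ≤ _ := mul_le_mul_of_nonneg_left e7 (by positivity)
      rw [add_div] at e2
      linarith
    have hττ : τ ≤ τ' := min_le_left _ _
    linarith
  refine ⟨a, ha0, 1 / a + D / a ^ 2, by positivity, fun x hx y hy => ?_⟩
  rw [abs_le]
  have h1 := key x hx y hy
  have h2 := key y hy x hx
  rw [norm_sub_rev] at h2
  constructor <;> linarith

include hq in
/-- the tangential property of the infimal convolution -/
lemma ic_tan (hml : ∀ z z', |m z - m z'| ≤ ‖z - z'‖) {z₀ : Z}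
    (hz₀ : 0 < m z₀) (hzT : z₀ ∈ T)
    (hQ : ∀ w ∈ T, q z₀ + ‖z₀ - w‖ ≤ q w + ‖z₀ - w‖ / m z₀)
    (A : Submodule ℝ Z) (l : Z →L[ℝ] ℝ) (c : ℝ) {δ : ℝ} (hδ : 0 < δ)
    (hflat : ∀ z ∈ ball z₀ δ, z ∈ T ↔ z - z₀ ∈ A)
    (hlip : ∀ z ∈ T ∩ ball z₀ δ, ∀ z' ∈ T ∩ ball z₀ δ, |q z - q z' - l (z - z')| ≤ c * ‖z - z'‖)
    {ε : ℝ} (hε : 0 < ε) :
    ∃ δ' > 0, ∀ z ∈ ball z₀ δ', ∀ v ∈ A, z + v ∈ ball z₀ δ' →
      ic T q m (z + v) ≤ ic T q m z + l v + (c + ε) * ‖v‖ := by
  set a : ℝ := m z₀ / 2 with ha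
  have ha0 : 0 < a := by positivity
  set σ : ℝ := min (δ / 2) (ε * a ^ 2) with hσ
  have hσ0 : 0 < σ := lt_min (by positivity) (by positivity)
  set δ' : ℝ := min (min a (a ^ 2 / 2)) (min (δ / 8) (σ * min a 1 / 16)) with hδ'
  have hδ'0 : 0 < δ' := by
    apply lt_min (lt_min ha0 (by positivity)) (lt_min (by positivity) (by positivity))
  have hd1 : δ' ≤ a := (min_le_left _ _).trans (min_le_left _ _)
  have hd2 : δ' ≤ a ^ 2 / 2 := (min_le_left _ _).trans (min_le_right _ _)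
  have hd3 : δ' ≤ δ / 8 := (min_le_right _ _).trans (min_le_left _ _)
  have hd4 : δ' ≤ σ * min a 1 / 16 := (min_le_right _ _).trans (min_le_right _ _)
  have hd5 : δ' ≤ σ * a / 16 := hd4.trans (by
    have := min_le_left a 1
    have h2 : σ * min a 1 ≤ σ * a := mul_le_mul_of_nonneg_left this hσ0.le
    linarith)
  have hd6 : δ' ≤ σ / 16 := hd4.trans (by
    have := min_le_right a 1
    have h2 : σ * min a 1 ≤ σ * 1 := mul_le_mul_of_nonneg_left this hσ0.le
    linarith)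
  have hma : ∀ z ∈ ball z₀ δ', a ≤ m z := by
    intro z hz
    rw [mem_ball, dist_eq_norm, norm_sub_rev] at hz
    have := (abs_le.1 (hml z₀ z)).2
    linarith
  refine ⟨δ', hδ'0, fun z hz v hv hzv => ?_⟩
  have hmz := hma z hz
  have hpz : 0 < m z := by linarith
  have hmzv := hma _ hzv
  have hpzv : 0 < m (z + v) := by linarith
  have hzn : ‖z - z₀‖ < δ' := by rwa [mem_ball, dist_eq_norm] at hz
  have hzvn : ‖z + v - z₀‖ < δ' := by rwa [mem_ball, dist_eq_norm] at hzv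
  have hvn : ‖v‖ < 2 * δ' := by
    have : v = (z + v - z₀) - (z - z₀) := by abel
    rw [this]
    have := norm_sub_le (z + v - z₀) (z - z₀)
    linarith
  apply le_of_forall_pos_le_add
  intro τ' hτ'
  set τ := min τ' (σ / 8) with hτ
  have hτ0 : 0 < τ := lt_min hτ' (by positivity)
  obtain ⟨w, hw, hlt⟩ := ic_near (q := q) (m := m) (z := z) ⟨z₀, hzT⟩ hτ0
  have h1 := ic_le hq hpz hzT
  have h2 := hQ w hw
  have hslope : 1 / m z₀ - 1 / m z ≤ 1 / 2 := by
    have e1 : 1 / m z₀ - 1 / m z = (m z - m z₀) / (m z₀ * m z) := by field_simp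
    rw [e1, div_le_iff₀ (by positivity)]
    have e2 : m z - m z₀ ≤ ‖z - z₀‖ := (abs_le.1 (hml z z₀)).2
    have e3 : a ^ 2 ≤ m z₀ * m z := by
      have : a ≤ m z₀ := by rw [ha]; linarith
      rw [pow_two]
      exact mul_le_mul this hmz ha0.le hz₀.le
    linarith
  have hw1 : ‖z₀ - w‖ ≤ σ / 2 := by
    have e1 : ‖z₀ - w‖ - ‖z - z₀‖ ≤ ‖z - w‖ := by
      have : z₀ - w = (z - w) - (z - z₀) := by abel
      rw [this]
      have := norm_sub_le (z - w) (z - z₀)
      linarith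
    have e2 : (‖z₀ - w‖ - ‖z - z₀‖) / m z ≤ ‖z - w‖ / m z := div_le_div_of_nonneg_right e1 hpz.le
    have e3 : ‖z₀ - w‖ * (1 / m z₀ - 1 / m z) ≤ ‖z₀ - w‖ * (1 / 2) :=
      mul_le_mul_of_nonneg_left hslope (norm_nonneg _)
    have e4 : ‖z - z₀‖ / m z ≤ σ / 16 := by
      rw [div_le_iff₀ hpz]
      calc ‖z - z₀‖ ≤ σ * a / 16 := hzn.le.trans hd5
        _ = σ / 16 * a := by ring
        _ ≤ σ / 16 * m z := mul_le_mul_of_nonneg_left hmz (by positivity)
    have e5 : τ ≤ σ / 8 := min_le_right _ _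
    have e6 : ‖z₀ - w‖ * (1 / m z₀ - 1 / m z) = ‖z₀ - w‖ / m z₀ - ‖z₀ - w‖ / m z := by ring
    have e7 : (‖z₀ - w‖ - ‖z - z₀‖) / m z = ‖z₀ - w‖ / m z - ‖z - z₀‖ / m z := by ring
    rw [e6] at e3
    rw [e7] at e2
    linarith
  have hσδ : σ ≤ δ / 2 := min_le_left _ _
  have hσε : σ ≤ ε * a ^ 2 := min_le_right _ _
  have hzw : ‖z - w‖ ≤ σ := by
    have : z - w = (z - z₀) + (z₀ - w) := by abel
    rw [this]
    have := norm_add_le (z - z₀) (z₀ - w)
    linarith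
  have hwball : w ∈ ball z₀ δ := by
    rw [mem_ball, dist_eq_norm, norm_sub_rev]
    linarith
  have hwvball : w + v ∈ ball z₀ δ := by
    rw [mem_ball, dist_eq_norm]
    have : w + v - z₀ = v - (z₀ - w) := by abel
    rw [this]
    have := norm_sub_le v (z₀ - w)
    linarith
  have hwA : w - z₀ ∈ A := (hflat w hwball).1 hw
  have hwvT : w + v ∈ T := by
    rw [hflat _ hwvball]
    have : w + v - z₀ = (w - z₀) + v := by abel
    rw [this]
    exact A.add_mem hwA hv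
  have h3 := (abs_le.1 (hlip (w + v) ⟨hwvT, hwvball⟩ w ⟨hw, hwball⟩)).2
  have e8 : w + v - w = v := by abel
  rw [e8] at h3
  have h4 := ic_le hq hpzv hwvT
  have e9 : z + v - (w + v) = z - w := by abel
  rw [e9] at h4
  have h5 : ‖z - w‖ / m (z + v) - ‖z - w‖ / m z ≤ ε * ‖v‖ := by
    have e1 : ‖z - w‖ / m (z + v) - ‖z - w‖ / m z =
        ‖z - w‖ * (m z - m (z + v)) / (m (z + v) * m z) := by field_simp
    rw [e1, div_le_iff₀ (by positivity)]
    have e2 : m z - m (z + v) ≤ ‖v‖ := by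
      have := (abs_le.1 (hml z (z + v))).2
      have e3 : z - (z + v) = -v := by abel
      rw [e3, norm_neg] at this
      exact this
    have e3 : a ^ 2 ≤ m (z + v) * m z := by
      rw [pow_two]
      exact mul_le_mul hmzv hmz ha0.le hpzv.le
    calc ‖z - w‖ * (m z - m (z + v)) ≤ ‖z - w‖ * ‖v‖ :=
          mul_le_mul_of_nonneg_left e2 (norm_nonneg _)
      _ ≤ (ε * a ^ 2) * ‖v‖ := mul_le_mul_of_nonneg_right (hzw.trans hσε) (norm_nonneg _)
      _ = ε * ‖v‖ * a ^ 2 := by ring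
      _ ≤ _ := mul_le_mul_of_nonneg_left e3 (by positivity)
  have hττ : τ ≤ τ' := min_le_left _ _
  have : (c + ε) * ‖v‖ = c * ‖v‖ + ε * ‖v‖ := by ring
  linarith

end

end Pool.Agent.Helper19Sob
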