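import Pool.Agent.Helper27_Sob.Statements

/-!
# B6: the mirror homeomorphism
-/

set_option autoImplicit false

open Set Filter Topology Metric MeasureTheory
open scoped ENNReal NNReal

namespace Pool.Agent.Helper19Sob

open Pool.Agent.Helper27Sob

/-- cut-off -/
noncomputable def zeta (t : ℝ) : ℝ := max 0 (min 1 (2 - t))

lemma zeta_nonneg (t : ℝ) : 0 ≤ zeta t := le_max_left _ _

lemma zeta_le_one (t : ℝ) : zeta t ≤ 1 := max_le (by norm_num) (min_le_left _ _)

lemma zeta_one {t : ℝ} (h : t ≤ 1) : zeta t = 1 := by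
  unfold zeta
  rw [min_eq_left (by linarith), max_eq_right (by norm_num)]

lemma zeta_zero {t : ℝ} (h : 2 ≤ t) : zeta t = 0 := by
  unfold zeta
  rw [min_eq_right (by linarith), max_eq_left (by linarith)]

lemma zeta_lip (s t : ℝ) : |zeta s - zeta t| ≤ |s - t| := by
  unfold zeta
  calc |max 0 (min 1 (2 - s)) - max 0 (min 1 (2 - t))|
      ≤ max |(0 : ℝ) - 0| |min 1 (2 - s) - min 1 (2 - t)| := abs_max_sub_max_le_max _ _ _ _
    _ = |min 1 (2 - s) - min 1 (2 - t)| := by simp
    _ ≤ max |(1 : ℝ) - 1| |(2 - s) - (2 - t)| := abs_min_sub_min_le_max _ _ _ _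
    _ = |s - t| := by
        rw [sub_self, abs_zero, max_eq_right (abs_nonneg _)]
        have : 2 - s - (2 - t) = -(s - t) := by ring
        rw [this, abs_neg]

/-- the scales -/
noncomputable def TT (M : ℝ) (k : ℕ) : ℝ := 8 * M * (1 / 2) ^ k

lemma TT_pos {M : ℝ} (hM : 0 < M) (k : ℕ) : 0 < TT M k := by unfold TT; positivity

/-- the smoothed height function -/
noncomputable def HH (M : ℝ) (d : ℕ → Z → ℝ) (z : Z) (τ : ℝ) : ℝ :=
  ∑' k, d k z * zeta (|τ| / TT M k)

section
variable {M : ℝ} {d : ℕ → Z → ℝ} (hM : 0 < M) (hd : ∀ k z, |d k z| ≤ M * (1 / 4) ^ k)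

include hd in
lemma term_le (z : Z) (τ : ℝ) (k : ℕ) : ‖d k z * zeta (|τ| / TT M k)‖ ≤ M * (1 / 4) ^ k := by
  rw [norm_mul, Real.norm_eq_abs, Real.norm_eq_abs, abs_of_nonneg (zeta_nonneg _)]
  calc |d k z| * zeta (|τ| / TT M k) ≤ |d k z| * 1 :=
        mul_le_mul_of_nonneg_left (zeta_le_one _) (abs_nonneg _)
    _ ≤ _ := by rw [mul_one]; exact hd k z

lemma summ_geo : Summable fun k : ℕ => M * (1 / 4 : ℝ) ^ k :=
  (summable_geometric_of_lt_one (by norm_num) (by norm_num)).mul_left M

include hd in
lemma summ (z : Z) (τ : ℝ) : Summable fun k => d k z * zeta (|τ| / TT M k) :=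
  Summable.of_norm_bounded summ_geo (term_le hd z τ)

lemma HH_neg (z : Z) (τ : ℝ) : HH M d z (-τ) = HH M d z τ := by
  unfold HH
  rw [abs_neg]

include hM hd in
lemma HH_lip (z : Z) (τ τ' : ℝ) : |HH M d z τ - HH M d z τ'| ≤ 1 / 4 * |τ - τ'| := by
  unfold HH
  rw [← (summ hd z τ).tsum_sub (summ hd z τ')]
  have hg : HasSum (fun k : ℕ => 1 / 8 * |τ - τ'| * (1 / 2 : ℝ) ^ k) (1 / 8 * |τ - τ'| * 2) := by
    have := (hasSum_geometric_of_lt_one (r := (1 / 2 : ℝ)) (by norm_num) (by norm_num)).mul_left
      (1 / 8 * |τ - τ'|)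
    have e2 : (1 - 1 / 2 : ℝ)⁻¹ = 2 := by norm_num
    rw [e2] at this
    exact this
  have h := tsum_of_norm_bounded hg (f := fun k => d k z * zeta (|τ| / TT M k) -
    d k z * zeta (|τ'| / TT M k)) (fun k => ?_)
  · rw [Real.norm_eq_abs] at h
    refine h.trans (le_of_eq ?_)
    ring
  · rw [← mul_sub, norm_mul, Real.norm_eq_abs, Real.norm_eq_abs]
    have hT := TT_pos hM k
    calc |d k z| * |zeta (|τ| / TT M k) - zeta (|τ'| / TT M k)|
        ≤ (M * (1 / 4) ^ k) * (|τ - τ'| / TT M k) := by
          apply mul_le_mul (hd k z) _ (abs_nonneg _) (by positivity)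
          refine (zeta_lip _ _).trans ?_
          rw [← sub_div, abs_div, abs_of_pos hT]
          exact div_le_div_of_nonneg_right (abs_abs_sub_abs_le _ _) hT.le
      _ = 1 / 8 * |τ - τ'| * (1 / 2 : ℝ) ^ k := by
          unfold TT
          have e : (1 / 4 : ℝ) ^ k = (1 / 2) ^ k * (1 / 2) ^ k := by
            rw [← mul_pow]; norm_num
          rw [e]
          have h2 : (0 : ℝ) < (1 / 2) ^ k := by positivity
          field_simp

include hM hd in
lemma exists_T (z : Z) (s : ℝ) : ∃ τ, τ + HH M d z τ = s := by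
  have hc : ContractingWith (1 / 4 : ℝ≥0) (fun τ => s - HH M d z τ) := by
    refine ⟨?_, ?_⟩
    · rw [← NNReal.coe_lt_coe]; norm_num
    · refine LipschitzWith.of_dist_le_mul fun τ τ' => ?_
      rw [Real.dist_eq, Real.dist_eq]
      have := HH_lip hM hd z τ τ'
      have e : s - HH M d z τ - (s - HH M d z τ') = -(HH M d z τ - HH M d z τ') := by ring
      rw [e, abs_neg]
      convert this using 2
      norm_num
  refine ⟨hc.fixedPoint, ?_⟩
  have := hc.fixedPoint_isFixedPt
  unfold Function.IsFixedPt at this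
  simp only at this
  linarith

include hM hd in
lemma T_diff {z z' : Z} {s s' τ τ' : ℝ} (h : τ + HH M d z τ = s) (h' : τ' + HH M d z' τ' = s') :
    |τ - τ'| ≤ 4 / 3 * (|s - s'| + |HH M d z τ - HH M d z' τ|) := by
  have h1 := HH_lip hM hd z' τ τ'
  have h2 : τ - τ' = (s - s') - (HH M d z τ - HH M d z' τ) - (HH M d z' τ - HH M d z' τ') := by
    linarith
  have h3 : |τ - τ'| ≤ |s - s'| + |HH M d z τ - HH M d z' τ| + |HH M d z' τ - HH M d z' τ'| := by
    rw [h2]
    refine (abs_sub _ _).trans ?_
    exact add_le_add_left (abs_sub _ _) _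
  linarith

end

theorem b6 : B6Statement := by
  intro P h d M R θ hP hPne hM hθ hL hd hd0 hsum hdR
  have hh : ∀ z, h z = ∑' k, d k z := fun z => (hsum z).tsum_eq.symm
  choose T hT using fun (y : Z × ℝ) => exists_T hM hd y.1 y.2
  have hTu : ∀ (y : Z × ℝ) (τ : ℝ), τ + HH M d y.1 τ = y.2 → T y = τ := by
    intro y τ hτ
    have := T_diff hM hd (hT y) hτ
    simp only [sub_self, abs_zero, add_zero, mul_zero] at this
    have h2 := abs_nonneg (T y - τ)
    have h3 : T y - τ = 0 := abs_eq_zero.1 (le_antisymm this h2)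
    linarith
  have hdc : ∀ k, Continuous (d k) := fun k => (hL k).choose_spec.continuous
  have hHc : ∀ τ, Continuous (fun z => HH M d z τ) := by
    intro τ
    unfold HH
    exact continuous_tsum (fun k => (hdc k).mul continuous_const) summ_geo
      fun k z => term_le hd z τ k
  have hhc : Continuous h := by
    have : h = fun z => HH M d z 0 := by
      funext z
      rw [hh]
      unfold HH
      congr 1
      funext k
      rw [abs_zero, zero_div, zeta_one (by norm_num), mul_one]
    rw [this]
    exact hHc 0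
  have hTc : Continuous T := by
    rw [continuous_iff_continuousAt]
    intro y
    rw [ContinuousAt, tendsto_iff_dist_tendsto_zero]
    have hlim : Tendsto (fun y' : Z × ℝ => 4 / 3 * (|y.2 - y'.2| + |HH M d y.1 (T y) -
        HH M d y'.1 (T y)|)) (𝓝 y) (𝓝 (4 / 3 * (|y.2 - y.2| + |HH M d y.1 (T y) -
        HH M d y.1 (T y)|))) := by
      apply Continuous.tendsto
      have := hHc (T y)
      fun_prop
    simp only [sub_self, abs_zero, add_zero, mul_zero] at hlim
    refine squeeze_zero (fun _ => dist_nonneg) (fun y' => ?_) hlim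
    rw [dist_comm, Real.dist_eq]
    exact T_diff hM hd (hT y) (hT y')
  set G : Z × ℝ → Z × ℝ := fun y => (y.1, y.2 - 2 * T y) with hG
  have hGc : Continuous G := by
    rw [hG]
    fun_prop
  have hGG : ∀ y, G (G y) = y := by
    intro y
    have h1 : T (G y) = -T y := by
      apply hTu
      rw [HH_neg]
      have := hT y
      simp only [hG]
      linarith
    simp only [hG] at h1 ⊢
    rw [h1]
    refine Prod.ext rfl ?_
    simp only
    ring
  have hG1 : ∀ y, T y = y.2 → G y = (y.1, -y.2) := by
    intro y hy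
    simp only [hG]
    rw [hy]
    refine Prod.ext rfl ?_
    simp only
    ring
  refine ⟨⟨⟨G, G, hGG, hGG⟩, hGc, hGc⟩, ?_, ?_, ?_, ?_⟩
  · intro z
    show G (z, h z) = (z, h z)
    have : T (z, h z) = 0 := by
      apply hTu
      simp only [zero_add]
      rw [hh]
      unfold HH
      congr 1
      funext k
      rw [abs_zero, zero_div, zeta_one (by norm_num), mul_one]
    simp only [hG]
    rw [this]
    simp
  · -- locally Lipschitz
    intro y₀ hy₀
    choose L hLip using hL
    -- finitely many terms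
    obtain ⟨N, r, hr, hfin⟩ : ∃ N : ℕ, ∃ r > 0, ∀ z ∈ ball y₀.1 r, ∀ τ ∈ ball (T y₀) r,
        ∀ k, N ≤ k → d k z * zeta (|τ| / TT M k) = 0 := by
      by_cases hz : y₀.1 ∈ P
      · have hne : T y₀ ≠ 0 := by
          intro h0
          apply hy₀
          refine ⟨hz, ?_⟩
          have h1 := hT y₀
          rw [h0, zero_add] at h1
          rw [← h1, hh]
          unfold HH
          congr 1
          funext k
          rw [abs_zero, zero_div, zeta_one (by norm_num), mul_one]
        have hpos : 0 < |T y₀| := abs_pos.2 hne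
        have hTT : Tendsto (fun k : ℕ => 2 * TT M k) atTop (𝓝 0) := by
          have := (tendsto_pow_atTop_nhds_zero_of_lt_one (r := (1 / 2 : ℝ)) (by norm_num)
            (by norm_num)).const_mul (2 * (8 * M))
          rw [mul_zero] at this
          refine this.congr fun k => ?_
          unfold TT
          ring
        obtain ⟨N, hN⟩ := eventually_atTop.1 (hTT.eventually_lt_const (half_pos hpos))
        refine ⟨N, |T y₀| / 2, by positivity, fun z _ τ hτ k hk => ?_⟩
        rw [zeta_zero, mul_zero]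
        rw [le_div_iff₀ (TT_pos hM k)]
        rw [mem_ball, Real.dist_eq] at hτ
        have h1 := hN k hk
        have h2 := abs_sub_abs_le_abs_sub (T y₀) τ
        rw [abs_sub_comm] at h2
        linarith
      · have hpos : 0 < infDist y₀.1 P := (hP.isClosed.notMem_iff_infDist_pos hPne).1 hz
        obtain ⟨N, hN⟩ := eventually_atTop.1 (hθ.eventually_lt_const (half_pos hpos))
        refine ⟨max N 1, infDist y₀.1 P / 2, by positivity, fun z hz' τ _ k hk => ?_⟩
        rw [hd0 k z ((le_max_right _ _).trans hk), zero_mul]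
        have h1 := hN k ((le_max_left _ _).trans hk)
        have h2 := infDist_le_infDist_add_dist (s := P) (x := y₀.1) (y := z)
        rw [mem_ball, dist_comm] at hz'
        linarith
    obtain ⟨r', hr', hball⟩ : ∃ r' > 0, ∀ y ∈ ball y₀ r', T y ∈ ball (T y₀) r := by
      have := hTc.tendsto y₀ (ball_mem_nhds _ hr)
      rw [mem_map, Metric.mem_nhds_iff] at this
      obtain ⟨ε, hε, hs⟩ := this
      exact ⟨ε, hε, fun y hy => hs hy⟩
    set KL : ℝ≥0 := ∑ k ∈ Finset.range N, L k with hKL
    have hHlip : ∀ z ∈ ball y₀.1 r, ∀ z' ∈ ball y₀.1 r, ∀ τ ∈ ball (T y₀) r,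
        |HH M d z τ - HH M d z' τ| ≤ KL * dist z z' := by
      intro z hz z' hz' τ hτ
      have e : ∀ z ∈ ball y₀.1 r, HH M d z τ =
          ∑ k ∈ Finset.range N, d k z * zeta (|τ| / TT M k) := by
        intro z hz
        unfold HH
        apply tsum_eq_sum
        intro k hk
        exact hfin z hz τ hτ k (by simpa using hk)
      rw [e z hz, e z' hz', ← Finset.sum_sub_distrib, hKL]
      push_cast
      rw [Finset.sum_mul]
      refine (Finset.abs_sum_le_sum_abs _ _).trans (Finset.sum_le_sum fun k _ => ?_)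
      rw [← sub_mul, abs_mul, abs_of_nonneg (zeta_nonneg _)]
      calc |d k z - d k z'| * zeta (|τ| / TT M k) ≤ |d k z - d k z'| * 1 :=
            mul_le_mul_of_nonneg_left (zeta_le_one _) (abs_nonneg _)
        _ ≤ L k * dist z z' := by
            rw [mul_one, ← Real.dist_eq]
            exact (hLip k).dist_le_mul z z'
    refine ⟨min r r', lt_min hr hr', 1 + 2 * (4 / 3 * (1 + KL)), ?_⟩
    refine LipschitzOnWith.of_dist_le_mul fun y hy y' hy' => ?_
    have hy1 : y ∈ ball y₀ r' := ball_subset_ball (min_le_right _ _) hy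
    have hyr : ∀ y ∈ ball y₀ (min r r'), y.1 ∈ ball y₀.1 r := by
      intro y hy
      rw [mem_ball] at hy ⊢
      have h1 : dist y.1 y₀.1 ≤ dist y y₀ := by
        rw [Prod.dist_eq]
        exact le_max_left _ _
      exact lt_of_le_of_lt h1 (lt_of_lt_of_le hy (min_le_left _ _))
    have hTd : |T y - T y'| ≤ 4 / 3 * (1 + KL) * dist y y' := by
      have h1 := T_diff hM hd (hT y) (hT y')
      have h2 := hHlip y.1 (hyr y hy) y'.1 (hyr y' hy') (T y) (hball y hy1)
      have h3 : |y.2 - y'.2| ≤ dist y y' := by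
        rw [Prod.dist_eq, ← Real.dist_eq]
        exact le_max_right _ _
      have h4 : dist y.1 y'.1 ≤ dist y y' := by
        rw [Prod.dist_eq]
        exact le_max_left _ _
      have h5 : (KL : ℝ) * dist y.1 y'.1 ≤ KL * dist y y' :=
        mul_le_mul_of_nonneg_left h4 KL.coe_nonneg
      calc |T y - T y'| ≤ 4 / 3 * (|y.2 - y'.2| + |HH M d y.1 (T y) - HH M d y'.1 (T y)|) := h1
        _ ≤ 4 / 3 * (dist y y' + KL * dist y y') := by
            apply mul_le_mul_of_nonneg_left _ (by norm_num)
            linarith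
        _ = _ := by ring
    show dist (G y) (G y') ≤ _
    rw [Prod.dist_eq]
    have hK0 : (0 : ℝ) ≤ KL := KL.coe_nonneg
    have hdd : 0 ≤ dist y y' := dist_nonneg
    push_cast
    apply max_le
    · have h4 : dist y.1 y'.1 ≤ dist y y' := by
        rw [Prod.dist_eq]
        exact le_max_left _ _
      have : dist (G y).1 (G y').1 = dist y.1 y'.1 := rfl
      rw [this]
      nlinarith [mul_nonneg hK0 hdd]
    · have : dist (G y).2 (G y').2 = |(y.2 - y'.2) - 2 * (T y - T y')| := by
        rw [Real.dist_eq]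
        congr 1
        simp only [hG]
        ring
      rw [this]
      have h3 : |y.2 - y'.2| ≤ dist y y' := by
        rw [Prod.dist_eq, ← Real.dist_eq]
        exact le_max_right _ _
      calc |(y.2 - y'.2) - 2 * (T y - T y')| ≤ |y.2 - y'.2| + |2 * (T y - T y')| := abs_sub _ _
        _ = |y.2 - y'.2| + 2 * |T y - T y'| := by rw [abs_mul, abs_of_pos (by norm_num : (0 : ℝ) < 2)]
        _ ≤ _ := by nlinarith
  · -- reflection in the graph
    intro z₀ s₀ hz₀ hk
    have hpos : 0 < infDist z₀ P := (hP.isClosed.notMem_iff_infDist_pos hPne).1 hz₀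
    obtain ⟨N, hN⟩ := eventually_atTop.1 (hθ.eventually_lt_const (half_pos hpos))
    have hfar : ∀ᶠ z in 𝓝 z₀, ∀ k, max N 1 ≤ k → d k z = 0 := by
      filter_upwards [ball_mem_nhds z₀ (half_pos hpos)] with z hz k hk
      rw [hd0 k z ((le_max_right _ _).trans hk)]
      have h1 := hN k ((le_max_left _ _).trans hk)
      have h2 := infDist_le_infDist_add_dist (s := P) (x := z₀) (y := z)
      rw [mem_ball, dist_comm] at hz
      linarith
    have hnear : ∀ᶠ y : Z × ℝ in 𝓝 (z₀, s₀), ∀ k ∈ Finset.range (max N 1),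
        d k y.1 = 0 ∨ |y.2 - h y.1| ≤ TT M k := by
      rw [Filter.eventually_all_finset]
      intro k _
      rcases hk k with h1 | h1
      · have : Tendsto (fun y : Z × ℝ => y.1) (𝓝 (z₀, s₀)) (𝓝 z₀) := continuous_fst.tendsto _
        filter_upwards [this.eventually h1] with y hy
        exact Or.inl hy
      · have hc : Continuous fun y : Z × ℝ => |y.2 - h y.1| := by fun_prop
        have h2 : ∀ᶠ y in 𝓝 (z₀, s₀), |y.2 - h y.1| < TT M k :=
          (hc.tendsto (z₀, s₀)).eventually_lt_const h1
        filter_upwards [h2] with y hy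
        exact Or.inr hy.le
    have hfar' : ∀ᶠ y : Z × ℝ in 𝓝 (z₀, s₀), ∀ k, max N 1 ≤ k → d k y.1 = 0 :=
      (continuous_fst.tendsto (z₀, s₀)).eventually hfar
    filter_upwards [hnear, hfar'] with y h1 h2
    have hTy : T y = y.2 - h y.1 := by
      apply hTu
      have : HH M d y.1 (y.2 - h y.1) = h y.1 := by
        rw [hh y.1]
        unfold HH
        congr 1
        funext k
        by_cases hkN : max N 1 ≤ k
        · rw [h2 k hkN, zero_mul]
        · rcases h1 k (by simpa using lt_of_not_ge hkN) with h3 | h3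
          · rw [h3, zero_mul]
          · rw [zeta_one, mul_one]
            rw [div_le_one (TT_pos hM k)]
            rw [hh y.1] at h3
            exact h3
      rw [this]
      ring
    show G y = _
    simp only [hG]
    rw [hTy]
    refine Prod.ext rfl ?_
    simp only
    ring
  · -- far away
    refine ⟨max R (16 * M), fun y hy => ?_⟩
    show G y = _
    apply hG1
    apply hTu
    have : HH M d y.1 y.2 = 0 := by
      unfold HH
      rw [← tsum_zero (α := ℝ) (β := ℕ)]
      congr 1
      funext k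
      by_cases hR : R ≤ ‖y.1‖
      · rw [hdR k y.1 hR, zero_mul]
      · rw [zeta_zero, mul_zero]
        rw [le_div_iff₀ (TT_pos hM k)]
        push Not at hR
        have h1 : 16 * M ≤ |y.2| := by
          have h2 : max R (16 * M) ≤ max ‖y.1‖ ‖y.2‖ := hy
          rcases le_max_iff.1 h2 with h3 | h3
          · exact absurd ((le_max_left _ _).trans h3) (not_le.2 hR)
          · exact (le_max_right _ _).trans h3
        have h2 : TT M k ≤ 8 * M := by
          unfold TT
          have : (1 / 2 : ℝ) ^ k ≤ 1 := pow_le_one₀ (by norm_num) (by norm_num)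
          nlinarith
        linarith
    rw [this]
    ring

end Pool.Agent.Helper19Sob
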