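import Pool.Agent.Helper27_Sob.Statements

/-!
# B7: cut-off functions (points have zero `2`-capacity in the plane)
-/

set_option autoImplicit false

open Set Filter Topology Metric MeasureTheory
open scoped ENNReal NNReal

namespace Pool.Agent.Helper19Sob

open Pool.Agent.Helper27Sob

/-- the dyadic numbers -/
noncomputable def dy (j : ℕ) : ℝ := (1 / 2) ^ j

lemma dy_pos (j : ℕ) : 0 < dy j := by unfold dy; positivity

lemma dy_anti {i j : ℕ} (h : i ≤ j) : dy j ≤ dy i :=
  pow_le_pow_of_le_one (by norm_num) (by norm_num) h

lemma dy_succ (j : ℕ) : dy j = 2 * dy (j + 1) := by unfold dy; rw [pow_succ]; ring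

lemma dy_mul (j : ℕ) : 2 ^ j * dy j = 1 := by
  unfold dy
  rw [← mul_pow]; norm_num

/-- clamp -/
noncomputable def cl (a b x : ℝ) : ℝ := min (max x a) b

lemma cl_symm {a b s t : ℝ} (hab : a ≤ b) (hst : s ≤ t) :
    cl a b t - cl a b s = cl s t b - cl s t a := by
  unfold cl
  simp only [min_def, max_def]
  split_ifs <;> linarith

/-- constants -/
noncomputable def cc (j : ℕ) : ℝ := 2 ^ (j + 1) / (j + 1)

lemma cc_pos (j : ℕ) : 0 < cc j := by unfold cc; positivity

lemma cc_mono : Monotone cc := by
  apply monotone_nat_of_le_succ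
  intro j
  unfold cc
  rw [div_le_div_iff₀ (by positivity) (by positivity)]
  push_cast
  have h1 : (2 : ℝ) ^ (j + 1 + 1) = 2 ^ (j + 1) * 2 := pow_succ _ _
  rw [h1]
  have h2 : (0 : ℝ) < 2 ^ (j + 1) := by positivity
  have h3 : (0 : ℝ) ≤ j := by positivity
  nlinarith [mul_nonneg h2.le h3]

/-- one step -/
noncomputable def st (j : ℕ) (t : ℝ) : ℝ := 2 ^ (j + 1) * (dy j - cl (dy (j + 1)) (dy j) t)

lemma st_one {j : ℕ} {t : ℝ} (h : t ≤ dy (j + 1)) : st j t = 1 := by
  unfold st cl
  rw [max_eq_right h, min_eq_left (dy_anti (Nat.le_succ j)), dy_succ j]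
  have := dy_mul (j + 1)
  linarith

lemma st_zero {j : ℕ} {t : ℝ} (h : dy j ≤ t) : st j t = 0 := by
  unfold st cl
  rw [min_eq_right (h.trans (le_max_left _ _))]
  ring

lemma st_nonneg (j : ℕ) (t : ℝ) : 0 ≤ st j t := by
  unfold st cl
  apply mul_nonneg (by positivity)
  have := min_le_right (max t (dy (j + 1))) (dy j)
  linarith

/-- the number of dyadic scales above `t` -/
noncomputable def lev (t : ℝ) : ℕ := ⌊Real.logb 2 t⁻¹⌋₊

/-- the gradient bound -/
noncomputable def ww (t : ℝ) : ℝ := cc (lev t)

lemma lt_dy_imp {j : ℕ} {s : ℝ} (hs : 0 < s) (h : s < dy j) : j ≤ lev s := by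
  unfold lev
  apply Nat.le_floor
  rw [Real.le_logb_iff_rpow_le (by norm_num) (by positivity), Real.rpow_natCast]
  rw [le_inv_comm₀ (by positivity) hs]
  have : ((2 : ℝ) ^ j)⁻¹ = dy j := by
    unfold dy
    rw [one_div, inv_pow]
  rw [this]
  exact h.le

lemma le_dy_lev {t : ℝ} (ht : 0 ≤ t) (h : lev t ≠ 0) : t ≤ dy (lev t) := by
  have h0 : 0 < t := by
    rcases ht.eq_or_lt with h1 | h1
    · exfalso
      apply h
      unfold lev
      rw [← h1]
      simp
    · exact h1
  have h1 : ((lev t : ℕ) : ℝ) ≤ Real.logb 2 t⁻¹ := by
    unfold lev at h ⊢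
    have : 0 < ⌊Real.logb 2 t⁻¹⌋₊ := Nat.pos_of_ne_zero h
    exact Nat.floor_le (by
      by_contra hc
      push Not at hc
      rw [Nat.floor_of_nonpos hc.le] at this
      exact lt_irrefl _ this)
  rw [Real.le_logb_iff_rpow_le (by norm_num) (by positivity), Real.rpow_natCast] at h1
  rw [le_inv_comm₀ (by positivity) h0] at h1
  have : ((2 : ℝ) ^ (lev t))⁻¹ = dy (lev t) := by
    unfold dy
    rw [one_div, inv_pow]
  rwa [this] at h1

/-- partial sums of steps -/
noncomputable def UU (a b : ℕ) (t : ℝ) : ℝ := ∑ j ∈ Finset.Ico a b, st j t / (j + 1)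

lemma UU_lip (a b : ℕ) {s t : ℝ} (hs : 0 < s) (hst : s ≤ t) :
    |UU a b s - UU a b t| ≤ ww s * (t - s) := by
  rcases Nat.lt_or_ge b a with hba | hab
  · unfold UU
    rw [Finset.Ico_eq_empty_of_le hba.le]
    simp only [Finset.sum_empty, sub_self, abs_zero]
    exact mul_nonneg (cc_pos _).le (by linarith)
  have h1 : ∀ j, st j s / (j + 1) - st j t / (j + 1) =
      cc j * (cl s t (dy j) - cl s t (dy (j + 1))) := by
    intro j
    have := cl_symm (dy_anti (Nat.le_succ j)) hst
    unfold st cc
    rw [← this]
    field_simp
    ring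
  have hcl : ∀ j, 0 ≤ cl s t (dy j) - cl s t (dy (j + 1)) := by
    intro j
    have : cl s t (dy (j + 1)) ≤ cl s t (dy j) := by
      unfold cl
      exact min_le_min_right _ (max_le_max_right _ (dy_anti (Nat.le_succ j)))
    linarith
  unfold UU
  rw [← Finset.sum_sub_distrib]
  simp only [h1]
  rw [abs_of_nonneg (Finset.sum_nonneg fun j _ => mul_nonneg (cc_pos j).le (hcl j))]
  calc ∑ j ∈ Finset.Ico a b, cc j * (cl s t (dy j) - cl s t (dy (j + 1)))
      ≤ ∑ j ∈ Finset.Ico a b, ww s * (cl s t (dy j) - cl s t (dy (j + 1))) := by
        apply Finset.sum_le_sum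
        intro j _
        by_cases hj : s < dy j
        · exact mul_le_mul_of_nonneg_right (cc_mono (lt_dy_imp hs hj)) (hcl j)
        · push Not at hj
          have e1 : cl s t (dy j) = s := by
            unfold cl
            rw [max_eq_right hj, min_eq_left hst]
          have e2 : cl s t (dy (j + 1)) = s := by
            unfold cl
            rw [max_eq_right ((dy_anti (Nat.le_succ j)).trans hj), min_eq_left hst]
          rw [e1, e2, sub_self, mul_zero, mul_zero]
    _ = ww s * (cl s t (dy a) - cl s t (dy b)) := by
        rw [← Finset.mul_sum]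
        congr 1
        have := Finset.sum_Ico_sub (fun j => cl s t (dy j)) hab
        have e : ∑ j ∈ Finset.Ico a b, (cl s t (dy j) - cl s t (dy (j + 1))) =
            -∑ j ∈ Finset.Ico a b, (cl s t (dy (j + 1)) - cl s t (dy j)) := by
          rw [← Finset.sum_neg_distrib]
          apply Finset.sum_congr rfl
          intro j _
          ring
        rw [e, this]
        ring
    _ ≤ ww s * (t - s) := by
        apply mul_le_mul_of_nonneg_left _ (cc_pos _).le
        have h2 : cl s t (dy a) ≤ t := min_le_right _ _
        have h3 : s ≤ cl s t (dy b) := le_min (le_max_right _ _) hst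
        linarith

lemma exists_b (n : ℕ) : ∃ b : ℕ, n ≤ b ∧ 1 ≤ ∑ j ∈ Finset.Ico n b, (1 : ℝ) / (j + 1) := by
  have h := Real.tendsto_sum_range_one_div_nat_succ_atTop
  obtain ⟨b, hb1, hb2⟩ := ((h.eventually_ge_atTop (1 + ∑ i ∈ Finset.range n, 1 / ((i : ℝ) + 1))).and
    (eventually_ge_atTop n)).exists
  refine ⟨b, hb2, ?_⟩
  rw [Finset.sum_Ico_eq_sub _ hb2]
  linarith

/-- the cut-off functions -/
noncomputable def phi (n : ℕ) (t : ℝ) : ℝ := min 1 (UU n (exists_b n).choose t)

lemma measurable_ww : Measurable ww := by
  unfold ww lev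
  have h1 : Measurable (fun t : ℝ => Real.logb 2 t⁻¹) := by
    unfold Real.logb
    fun_prop
  exact (measurable_from_nat (f := cc)).comp (Nat.measurable_floor.comp h1)

lemma ww_sq_le {t : ℝ} (ht : 0 ≤ t) : ENNReal.ofReal (ww t ^ 2) ≤
    ENNReal.ofReal 4 + ∑' j : ℕ, ENNReal.ofReal (cc j ^ 2) * (Iic (dy j)).indicator 1 t := by
  by_cases h : lev t = 0
  · refine le_trans ?_ (le_add_right le_rfl)
    unfold ww
    rw [h]
    apply ENNReal.ofReal_le_ofReal
    unfold cc
    norm_num
  · refine le_trans ?_ (le_add_left le_rfl)
    refine le_trans ?_ (ENNReal.le_tsum (lev t))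
    have h1 : t ∈ Iic (dy (lev t)) := le_dy_lev ht h
    rw [indicator_of_mem h1]
    simp [ww]

theorem w_int (J : Finset (Fin 5)) (hJ : J.card = 2) (p : E) (c R : ℝ) (hc : 0 < c) :
    ∫⁻ x in closedBall p R,
      ENNReal.ofReal (ww (c * ‖fun j : Fin 5 => if j ∈ J then x j - p j else 0‖) ^ 2) < ∞ := by
  rcases lt_or_ge R 0 with hR | hR
  · rw [closedBall_eq_empty.2 hR]
    simp
  set f : E → ℝ := fun x => c * ‖fun j : Fin 5 => if j ∈ J then x j - p j else 0‖ with hf
  have hf0 : ∀ x, 0 ≤ f x := fun x => by positivity
  have hfc : Continuous f := by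
    rw [hf]
    have : Continuous fun x : E => fun j : Fin 5 => if j ∈ J then x j - p j else 0 := by
      apply continuous_pi
      intro j
      split_ifs
      · fun_prop
      · exact continuous_const
    exact continuous_const.mul this.norm
  calc ∫⁻ x in closedBall p R, ENNReal.ofReal (ww (f x) ^ 2)
      ≤ ∫⁻ x in closedBall p R, (ENNReal.ofReal 4 +
          ∑' j : ℕ, ENNReal.ofReal (cc j ^ 2) * (Iic (dy j)).indicator 1 (f x)) :=
        lintegral_mono fun x => ww_sq_le (hf0 x)
    _ = ENNReal.ofReal 4 * volume (closedBall p R) +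
          ∑' j : ℕ, ENNReal.ofReal (cc j ^ 2) *
            ∫⁻ x in closedBall p R, (Iic (dy j)).indicator 1 (f x) := by
        rw [lintegral_add_left measurable_const, lintegral_const, Measure.restrict_apply_univ,
          lintegral_tsum]
        · congr 2
          funext j
          rw [lintegral_const_mul]
          exact (measurable_one.indicator measurableSet_Iic).comp hfc.measurable
        · intro j
          exact ((measurable_const.mul
            ((measurable_one.indicator measurableSet_Iic).comp hfc.measurable))).aemeasurable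
    _ ≤ ENNReal.ofReal 4 * volume (closedBall p R) +
          ∑' j : ℕ, ENNReal.ofReal (16 * (2 * R) ^ 3 / c ^ 2 * (1 / ((j : ℝ) + 1) ^ 2)) := by
        gcongr with j
        -- the volume of a box
        have hvol : ∫⁻ x in closedBall p R, (Iic (dy j)).indicator 1 (f x) ≤
            ENNReal.ofReal ((2 * dy j / c) ^ 2 * (2 * R) ^ 3) := by
          have e1 : ∀ x, (Iic (dy j)).indicator (1 : ℝ → ℝ≥0∞) (f x) =
              (f ⁻¹' Iic (dy j)).indicator 1 x := fun x => rfl
          simp only [e1]
          have hm : MeasurableSet (f ⁻¹' Iic (dy j)) := measurableSet_Iic.preimage hfc.measurable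
          rw [lintegral_indicator_one hm, Measure.restrict_apply hm]
          set a : E := fun i => if i ∈ J then dy j / c else R with ha
          have hsub : f ⁻¹' Iic (dy j) ∩ closedBall p R ⊆ Icc (p - a) (p + a) := by
            rintro x ⟨hx1, hx2⟩
            have hx3 : ∀ i, |x i - p i| ≤ a i := by
              intro i
              simp only [ha]
              split_ifs with hi
              · have h1 : f x ≤ dy j := hx1
                simp only [hf] at h1
                have h2 := norm_le_pi_norm (fun j : Fin 5 => if j ∈ J then x j - p j else 0) i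
                simp only [if_pos hi, Real.norm_eq_abs] at h2
                rw [le_div_iff₀ hc]
                nlinarith
              · rw [mem_closedBall, dist_pi_le_iff hR] at hx2
                rw [← Real.dist_eq]
                exact hx2 i
            constructor
            · intro i
              have := abs_le.1 (hx3 i)
              simp only [Pi.sub_apply]
              linarith
            · intro i
              have := abs_le.1 (hx3 i)
              simp only [Pi.add_apply]
              linarith
          refine (measure_mono hsub).trans ?_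
          rw [Real.volume_Icc_pi]
          have e2 : ∀ i, (p + a) i - (p - a) i = 2 * a i := by
            intro i
            simp only [Pi.add_apply, Pi.sub_apply]
            ring
          simp only [e2]
          rw [← ENNReal.ofReal_prod_of_nonneg]
          · apply ENNReal.ofReal_le_ofReal
            have e3 : ∀ i, 2 * a i = if i ∈ J then 2 * dy j / c else 2 * R := by
              intro i
              simp only [ha]
              split_ifs <;> ring
            simp only [e3]
            rw [Finset.prod_ite, Finset.prod_const, Finset.prod_const]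
            have e4 : (Finset.univ.filter fun i => i ∈ J) = J := by ext; simp
            have e5 : (Finset.univ.filter fun i => i ∉ J).card = 3 := by
              have := Finset.card_filter_add_card_filter_not (s := (Finset.univ : Finset (Fin 5)))
                (fun i => i ∈ J)
              rw [e4, hJ] at this
              simp only [Finset.card_univ, Fintype.card_fin] at this
              omega
            rw [e4, hJ, e5]
          · intro i _
            simp only [ha]
            have := dy_pos j
            split_ifs <;> positivity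
        calc ENNReal.ofReal (cc j ^ 2) * ∫⁻ x in closedBall p R, (Iic (dy j)).indicator 1 (f x)
            ≤ ENNReal.ofReal (cc j ^ 2) * ENNReal.ofReal ((2 * dy j / c) ^ 2 * (2 * R) ^ 3) := by
              gcongr
          _ = ENNReal.ofReal (16 * (2 * R) ^ 3 / c ^ 2 * (1 / ((j : ℝ) + 1) ^ 2)) := by
              rw [← ENNReal.ofReal_mul (by positivity)]
              congr 1
              unfold cc
              have e6 : (2 : ℝ) ^ (j + 1) * dy j = 2 := by
                rw [pow_succ]
                have := dy_mul j
                linarith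
              have e7 : (2 ^ (j + 1) / ((j : ℝ) + 1)) ^ 2 * ((2 * dy j / c) ^ 2 * (2 * R) ^ 3) =
                  (2 ^ (j + 1) * dy j) ^ 2 * (4 * (2 * R) ^ 3 / c ^ 2 * (1 / ((j : ℝ) + 1) ^ 2)) := by
                field_simp
                ring
              rw [e7, e6]
              ring
    _ < ∞ := by
        apply ENNReal.add_lt_top.2
        constructor
        · exact ENNReal.mul_lt_top ENNReal.ofReal_lt_top
            (isCompact_closedBall p R).measure_lt_top
        · have hs : Summable fun j : ℕ => 16 * (2 * R) ^ 3 / c ^ 2 * (1 / ((j : ℝ) + 1) ^ 2) := by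
            apply Summable.mul_left
            have := (summable_nat_add_iff 1).2 (Real.summable_one_div_nat_pow.2 (by norm_num : 1 < 2))
            refine this.congr fun j => ?_
            push_cast
            rfl
          exact lt_top_iff_ne_top.2 hs.tsum_ofReal_ne_top

theorem b7 : B7Statement := by
  refine ⟨⟨ww, phi, dy, fun t => (cc_pos _).le, ?_, measurable_ww, ?_, dy_pos, ?_, ?_, ?_, ?_,
    w_int⟩⟩
  · intro s hs t _ hst
    unfold ww
    apply cc_mono
    unfold lev
    apply Nat.floor_mono
    have hs' : (0 : ℝ) < s := hs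
    have ht' : (0 : ℝ) < t := lt_of_lt_of_le hs' hst
    apply Real.logb_le_logb_of_le (by norm_num) (by positivity)
    exact inv_anti₀ hs' hst
  · intro n t
    refine ⟨le_min (by norm_num) ?_, min_le_left _ _⟩
    exact Finset.sum_nonneg fun j _ => div_nonneg (st_nonneg j t) (by positivity)
  · exact tendsto_pow_atTop_nhds_zero_of_lt_one (by norm_num) (by norm_num)
  · intro n
    obtain ⟨h1, h2⟩ := (exists_b n).choose_spec
    refine ⟨dy (exists_b n).choose, dy_pos _, fun t ht => ?_⟩
    unfold phi UU
    apply min_eq_left
    refine h2.trans (le_of_eq ?_)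
    apply Finset.sum_congr rfl
    intro j hj
    rw [st_one]
    rw [Finset.mem_Ico] at hj
    exact ht.le.trans (dy_anti hj.2)
  · intro n t ht
    unfold phi UU
    rw [Finset.sum_eq_zero]
    · exact min_eq_right (by norm_num)
    · intro j hj
      rw [Finset.mem_Ico] at hj
      rw [st_zero ((dy_anti hj.1).trans ht), zero_div]
  · intro n s t hs hst
    unfold phi
    refine le_trans ?_ (UU_lip n (exists_b n).choose hs hst)
    calc |min 1 (UU n (exists_b n).choose s) - min 1 (UU n (exists_b n).choose t)|
        ≤ max |(1 : ℝ) - 1| |UU n (exists_b n).choose s - UU n (exists_b n).choose t| :=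
          abs_min_sub_min_le_max _ _ _ _
      _ = _ := by rw [sub_self, abs_zero, max_eq_right (abs_nonneg _)]

end Pool.Agent.Helper19Sob
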